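import Pool.Agent.H82.EUC.Stmts5

set_option autoImplicit false

namespace Pool.EUC

theorem bks82_mem {B : Type} {S : Set B} {b : B} (i : Bool) (h : b ∈ S) :
    sg S (b, i) = (b, !i) ∧ (sg S).symm (b, i) = (b, !i) := by
  constructor
  · simp [sg, h]
  · simp [sg, h]

theorem bks82_not {B : Type} {S : Set B} {b : B} (i : Bool) (h : b ∉ S) :
    sg S (b, i) = (b, i) ∧ (sg S).symm (b, i) = (b, i) := by
  constructor
  · simp [sg, h]
  · simp [sg, h]

theorem bks82_thm : BKS_S := by
  intro B R dM dW h S hS
  rintro ⟨b, i⟩ ⟨c, j⟩ ⟨h1, h2⟩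
  by_cases hbc : b = c
  · subst hbc
    by_cases hb : b ∈ S
    · rw [(bks82_mem i hb).1] at h1
      rw [(bks82_mem j hb).2] at h2
      by_cases hij : j = i
      · subst hij
        exact lt_asymm h2 (h.inW b j)
      · have hj : j = !i := by
          cases i <;> cases j <;> simp_all
        rw [hj] at h1
        exact lt_irrefl _ h1
    · rw [(bks82_not i hb).1] at h1
      by_cases hij : j = i
      · subst hij
        exact lt_irrefl _ h1
      · have hj : j = !i := by
          cases i <;> cases j <;> simp_all
        rw [hj] at h1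
        exact lt_asymm h1 (h.inM b i)
  · have hm : dM (b, i) (c, j) ≤ dM (b, i) (b, !i) := by
      by_cases hb : b ∈ S
      · rw [(bks82_mem i hb).1] at h1
        exact h1.le
      · rw [(bks82_not i hb).1] at h1
        exact (h1.trans (h.inM b i)).le
    have hw : dW (c, j) (b, i) ≤ dW (c, j) (c, j) := by
      by_cases hc : c ∈ S
      · rw [(bks82_mem j hc).2] at h2
        exact (h2.trans (h.inW c j)).le
      · rw [(bks82_not j hc).2] at h2
        exact h2.le
    obtain ⟨hR, h3, h4⟩ := h.crs b c i j hbc hm hw
    by_cases hb : b ∈ S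
    · have hc := hS b c hR hb
      rw [(bks82_mem j hc).2] at h2
      exact lt_asymm h2 h4
    · rw [(bks82_not i hb).1] at h1
      exact lt_asymm h1 h3

end Pool.EUC
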