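import Pool.Agent.H82.EUC.Stmts

set_option autoImplicit false

namespace Pool.EUC

theorem con_symm {A : Type} {dM dW : A → A → ℝ} {μ0 μ2 : Equiv.Perm A} {m m' : A}
    (h : RR dM dW μ0 μ2 m m') : RR dM dW μ0 μ2 m' m := by
  obtain ⟨w, h1, h2⟩ := h
  exact ⟨w, h2, h1⟩

theorem con82_thm (hGLU : GLU_S) : CON_S := by
  intro A _ dM dW hM hW μ0 μ2 h0 h2 hle huniq m m' hm hm'
  by_contra hn
  have hC : ∀ a b, RR dM dW μ0 μ2 a b →
      (a ∈ {x | Relation.ReflTransGen (RR dM dW μ0 μ2) m x} ↔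
        b ∈ {x | Relation.ReflTransGen (RR dM dW μ0 μ2) m x}) := by
    intro a b hab
    constructor
    · intro ha
      exact Relation.ReflTransGen.tail ha hab
    · intro hb
      exact Relation.ReflTransGen.tail hb (con_symm hab)
  obtain ⟨ν, s1, s2, s3, s4, s5⟩ := hGLU A dM dW hM hW μ0 μ2 h0 h2 hle _ hC
  obtain ⟨ν', t1, t2, t3, t4, t5⟩ := hGLU A dM dW hM hW μ0 μ2 h0 h2 hle
    {x | Relation.ReflTransGen (RR dM dW μ0 μ2) m x}ᶜ (fun a b hab => not_congr (hC a b hab))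
  have hmC : m ∈ {x | Relation.ReflTransGen (RR dM dW μ0 μ2) m x} := Relation.ReflTransGen.refl
  have hm'C : m' ∉ {x | Relation.ReflTransGen (RR dM dW μ0 μ2) m x} := hn
  have a1 : ν m = μ2 m := s4 m hmC
  have a2 : ν m' = μ0 m' := s5 m' hm'C
  have b1 : ν' m = μ0 m := t5 m (fun h => h hmC)
  have b2 : ν' m' = μ2 m' := t4 m' hm'C
  have h := huniq ν ν' s1 t1 s2 s3 t2 t3
    (fun h => hm (by rw [← a1, h])) (fun h => hm' (by rw [← a2, h]))
    (fun h => hm' (by rw [← b2, h])) (fun h => hm (by rw [← b1, h]))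
  rw [h, b1] at a1
  exact hm a1

end Pool.EUC
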