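import Mathlib

/-!
Stable matchings in the 1-Euclidean model (MP_d7577e_lc): definitions.
-/

set_option autoImplicit false

namespace Pool.EUC

/-- A 1-Euclidean instance: `n` men and `n` women, every person has a position and a preference
point on the real line. -/
structure Inst (n : ℕ) where
  prefM : Fin n → ℝ
  posM : Fin n → ℝ
  prefW : Fin n → ℝ
  posW : Fin n → ℝ

/-- Distance from the preference point of the man `m` to the woman `w`; smaller is better. -/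
def Inst.dM {n : ℕ} (I : Inst n) (m w : Fin n) : ℝ := |I.prefM m - I.posW w|

/-- Distance from the preference point of the woman `w` to the man `m`; smaller is better. -/
def Inst.dW {n : ℕ} (I : Inst n) (w m : Fin n) : ℝ := |I.prefW w - I.posM m|

section
variable {A : Type}

/-- No ties. -/
def Inj (d : A → A → ℝ) : Prop := ∀ x, Function.Injective (d x)

/-- `σ` (the man `m` is matched with the woman `σ m`) is stable. -/
def Stb (dM dW : A → A → ℝ) (σ : Equiv.Perm A) : Prop :=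
  ∀ m w, ¬ (dM m w < dM m (σ m) ∧ dW w m < dW w (σ.symm w))

/-- Every woman likes her partner in `τ` at least as much as her partner in `σ`. -/
def WLe (dW : A → A → ℝ) (σ τ : Equiv.Perm A) : Prop :=
  ∀ w, dW w (τ.symm w) ≤ dW w (σ.symm w)

/-- `ρ` is the pointwise meet of `σ` and `τ`: every woman gets the worse partner, every man the
better one. -/
def Meet (dM dW : A → A → ℝ) (σ τ ρ : Equiv.Perm A) : Prop :=
  (∀ w, dW w (ρ.symm w) = max (dW w (σ.symm w)) (dW w (τ.symm w))) ∧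
  (∀ m, dM m (ρ m) = min (dM m (σ m)) (dM m (τ m)))

/-- The horizontal segment of `m` meets the vertical segment of `w`; both are moved. -/
def Adj (dM dW : A → A → ℝ) (μ0 μ2 : Equiv.Perm A) (m w : A) : Prop :=
  μ0 m ≠ μ2 m ∧ μ0.symm w ≠ μ2.symm w ∧ dM m w ≤ dM m (μ2 m) ∧ dW w m ≤ dW w (μ0.symm w)

/-- Two men with a common neighbour. -/
def RR (dM dW : A → A → ℝ) (μ0 μ2 : Equiv.Perm A) (m m' : A) : Prop :=
  ∃ w, Adj dM dW μ0 μ2 m w ∧ Adj dM dW μ0 μ2 m' w

/-- The stable matchings used in the proof: `o`, `a u`, `d u v`, `b u v`, `c u v l` belong to the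
closed sets `∅`, `{u}`, `{u,v}`, `{u,v,uv}`, `{u,v,uv,l}`. -/
structure Fam (A : Type) where
  o : Equiv.Perm A
  a : Fin 5 → Equiv.Perm A
  d : Fin 5 → Fin 5 → Equiv.Perm A
  b : Fin 5 → Fin 5 → Equiv.Perm A
  c : Fin 5 → Fin 5 → Fin 5 → Equiv.Perm A

/-- The properties of the family. -/
structure IsFam (dM dW : A → A → ℝ) (F : Fam A) : Prop where
  so : Stb dM dW F.o
  sa : ∀ u, Stb dM dW (F.a u)
  sd : ∀ u v, u ≠ v → Stb dM dW (F.d u v)
  sb : ∀ u v, u ≠ v → Stb dM dW (F.b u v)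
  sc : ∀ u v l, u ≠ v → u ≠ l → v ≠ l → Stb dM dW (F.c u v l)
  dsymm : ∀ u v, F.d u v = F.d v u
  bsymm : ∀ u v, F.b u v = F.b v u
  oa : ∀ u, WLe dW F.o (F.a u)
  oane : ∀ u, F.o ≠ F.a u
  ad : ∀ u v, u ≠ v → WLe dW (F.a u) (F.d u v)
  db : ∀ u v, u ≠ v → WLe dW (F.d u v) (F.b u v)
  dbne : ∀ u v, u ≠ v → F.d u v ≠ F.b u v
  bc : ∀ u v l, u ≠ v → u ≠ l → v ≠ l → WLe dW (F.b u v) (F.c u v l)
  itv : ∀ u v, u ≠ v → ∀ ν, Stb dM dW ν → WLe dW (F.a u) ν → WLe dW ν (F.b u v) →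
    ν = F.a u ∨ ν = F.d u v ∨ ν = F.b u v
  m1 : ∀ u v, u ≠ v → Meet dM dW (F.a u) (F.a v) F.o
  m2 : ∀ u v k l, u ≠ v → u ≠ k → u ≠ l → v ≠ k → v ≠ l → k ≠ l →
    Meet dM dW (F.c u v l) (F.b k l) (F.a l)
  m3 : ∀ u v k l, u ≠ v → u ≠ k → u ≠ l → v ≠ k → v ≠ l → k ≠ l →
    Meet dM dW (F.c u v l) (F.c k l u) (F.d u l)

/-- The man `m` is moved between `{u}` and `{u,v,uv}`. -/
def Mv (F : Fam A) (u v : Fin 5) (m : A) : Prop := F.a u m ≠ F.b u v m

/-- The woman `w` is moved between `{u}` and `{u,v,uv}`. -/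
def Wv (F : Fam A) (u v : Fin 5) (w : A) : Prop := (F.a u).symm w ≠ (F.b u v).symm w

/-- Points `(woman, man)` of the edge `uv`. -/
def PtE (F : Fam A) (u v : Fin 5) (z : A × A) : Prop :=
  (Wv F u v z.1 ∨ Wv F v u z.1) ∧ (Mv F u v z.2 ∨ Mv F v u z.2)

/-- `w` is on the horizontal segment of the man `m` for the edge `uv`. -/
def HSE (dM : A → A → ℝ) (F : Fam A) (u v : Fin 5) (m w : A) : Prop :=
  (Mv F u v m ∨ Mv F v u m) ∧ dM m w ≤ dM m (F.b u v m)

/-- `m` is on the vertical segment of the woman `w` for the edge `uv`. -/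
def VSE (dW : A → A → ℝ) (F : Fam A) (u v : Fin 5) (w m : A) : Prop :=
  (Wv F u v w ∧ dW w m ≤ dW w ((F.a u).symm w)) ∨ (Wv F v u w ∧ dW w m ≤ dW w ((F.a v).symm w))

/-- An L-shaped step of the path of the edge `uv`: from `z = (w, m)` vertically, along the line of
the woman `w`, to `(w, m')`, then horizontally, along the line of the man `m'`, to `z' = (w', m')`. -/
def StE (dM dW : A → A → ℝ) (F : Fam A) (u v : Fin 5) (z z' : A × A) : Prop :=
  PtE F u v z ∧ PtE F u v z' ∧ HSE dM F u v z'.2 z.1 ∧ HSE dM F u v z'.2 z'.1 ∧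
  (z.2 = z'.2 ∨ (VSE dW F u v z.1 z.2 ∧ VSE dW F u v z.1 z'.2))

end

/-- Closed sets (lower sets) of the incidence poset of the graph `G`: with an edge the set contains
its two end vertices. -/
def Clo {V : Type} (G : SimpleGraph V) (S : Set (V ⊕ G.edgeSet)) : Prop :=
  ∀ (v : V) (e : G.edgeSet), v ∈ e.1 → Sum.inr e ∈ S → Sum.inl v ∈ S

/-- Indicator of `a ≤ b`. -/
noncomputable def st (a b : ℝ) : ZMod 2 := if a ≤ b then 1 else 0

/-- The potential of a path of L-shaped steps at a point. -/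
noncomputable def ph (z : ℕ → ℝ × ℝ) (N : ℕ) (w : ℝ × ℝ) : ZMod 2 :=
  ∑ s ∈ Finset.range N, st (z s).1 w.1 * (st (z s).2 w.2 + st (z (s + 1)).2 w.2)

end Pool.EUC
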