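import Pool.Agent.H82.EUC.Stmts5

set_option autoImplicit false

namespace Pool.EUC

/-- The vertical segment at `x v` from `lo v` to `hi v` meets the horizontal segment at height `y e`
from `l e` to `r e`. -/
def MeetR {V E : Type} (x lo hi : V → ℝ) (y l r : E → ℝ) (v : V) (e : E) : Prop :=
  l e ≤ x v ∧ x v ≤ r e ∧ lo v ≤ y e ∧ y e ≤ hi v

/-- Final statement of part B. -/
def FGR_S : Prop := ∀ (V E : Type) [Finite V] [Finite E] (x lo hi : V → ℝ) (y l r : E → ℝ),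
  (∀ v, lo v ≤ hi v) → (∀ e, l e ≤ r e) →
  ∃ I : Inst (2 * (Nat.card V + Nat.card E)), Inj I.dM ∧ Inj I.dW ∧
    (∀ i, (∃ a : ℕ, a ≤ 4 ^ (2 * (Nat.card V + Nat.card E) + 5) ∧ I.prefM i = a) ∧
      (∃ a : ℕ, a ≤ 4 ^ (2 * (Nat.card V + Nat.card E) + 5) ∧ I.posM i = a) ∧
      (∃ a : ℕ, a ≤ 4 ^ (2 * (Nat.card V + Nat.card E) + 5) ∧ I.prefW i = a) ∧
      ∃ a : ℕ, a ≤ 4 ^ (2 * (Nat.card V + Nat.card E) + 5) ∧ I.posW i = a) ∧
    (∃ f : {S : Set (V ⊕ E) // ∀ v e, MeetR x lo hi y l r v e → Sum.inr e ∈ S → Sum.inl v ∈ S} ≃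
        {σ : Equiv.Perm (Fin (2 * (Nat.card V + Nat.card E))) // Stb I.dM I.dW σ},
      ∀ S T, S.1 ⊆ T.1 ↔ WLe I.dW (f S).1 (f T).1) ∧
    Nat.card {σ : Equiv.Perm (Fin (2 * (Nat.card V + Nat.card E))) // Stb I.dM I.dW σ} =
      Nat.card {S : Set (V ⊕ E) // ∀ v e, MeetR x lo hi y l r v e →
        ¬ (Sum.inl v ∈ S ∧ Sum.inr e ∈ S)}

theorem fgr_toNat (a : ℤ) (n : ℕ) (h : 0 ≤ a ∧ a ≤ 4 ^ n) :
    ∃ b : ℕ, b ≤ 4 ^ n ∧ (a : ℝ) = b := by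
  obtain ⟨b, hb⟩ := Int.eq_ofNat_of_zero_le h.1
  refine ⟨b, ?_, ?_⟩
  · have h2 := h.2
    rw [hb] at h2
    exact_mod_cast h2
  · rw [hb]
    push_cast
    rfl

theorem fgr_thm (hBKE : BKE_S) (hGDI : GDI_S) (hGDA : GDA_S) (hGDC : GDC_S) (hGDE : GDE_S)
    (hRNK : RNK_S) (hBND : BND_S) (hTRN : TRN_S) (hNIS : NIS_S) : FGR_S := by
  intro V E _ _ x lo hi y l r hV hE
  obtain ⟨d, hd, hcr, hbV, hbE⟩ := hRNK V E x lo hi y l r hV hE
  obtain ⟨hM, hW⟩ := hGDI V E d hd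
  obtain ⟨a1, a2, a3, a4⟩ := hGDA V E d hd
  have hblk : IsBlk (V ⊕ E) d.R d.dM d.dW :=
    { inM := a1
      inW := a2
      crs := hGDC V E d hd
      ex := hGDE V E d hd
      pM := a3
      pW := a4
      rk := by
        refine ⟨fun b => Sum.elim (fun _ => 0) (fun _ => 1) b, ?_⟩
        rintro b c ⟨v, e, rfl, rfl, _⟩
        exact Nat.zero_lt_one }
  obtain ⟨f0, hf0⟩ := hBKE (V ⊕ E) d.R d.dM d.dW hM hW hblk
  have hcard : Nat.card ((V ⊕ E) × Bool) = 2 * (Nat.card V + Nat.card E) := by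
    rw [Nat.card_prod, Nat.card_sum, Nat.card_eq_fintype_card (α := Bool), Fintype.card_bool,
      mul_comm]
  have e : (V ⊕ E) × Bool ≃ Fin (2 * (Nat.card V + Nat.card E)) :=
    (Finite.equivFin ((V ⊕ E) × Bool)).trans (finCongr hcard)
  obtain ⟨h, hh⟩ := hTRN ((V ⊕ E) × Bool) _ e (fun z => (d.prefM z : ℝ)) (fun z => (d.posM z : ℝ))
    (fun z => (d.prefW z : ℝ)) (fun z => (d.posW z : ℝ))
  have hcl : ∀ S : Set (V ⊕ E), (∀ v e, MeetR x lo hi y l r v e → Sum.inr e ∈ S → Sum.inl v ∈ S) ↔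
      Cls d.R S := by
    intro S
    constructor
    · rintro hS b c ⟨v, e, rfl, rfl, h1⟩ hb
      exact hS v e ((hcr v e).1 h1) hb
    · intro hS v e h1 h2
      exact hS (Sum.inr e) (Sum.inl v) ⟨v, e, rfl, rfl, (hcr v e).2 h1⟩ h2
  have hb := hBND V E d _ hd hbV hbE
  let I : Inst (2 * (Nat.card V + Nat.card E)) :=
    { prefM := fun i => (d.prefM (e.symm i) : ℝ)
      posM := fun i => (d.posM (e.symm i) : ℝ)
      prefW := fun i => (d.prefW (e.symm i) : ℝ)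
      posW := fun i => (d.posW (e.symm i) : ℝ) }
  have F : ∃ f : {S : Set (V ⊕ E) // ∀ v e, MeetR x lo hi y l r v e → Sum.inr e ∈ S →
        Sum.inl v ∈ S} ≃
        {σ : Equiv.Perm (Fin (2 * (Nat.card V + Nat.card E))) // Stb I.dM I.dW σ},
      ∀ S T, S.1 ⊆ T.1 ↔ WLe I.dW (f S).1 (f T).1 := by
    refine ⟨(Equiv.subtypeEquivRight hcl).trans (f0.trans h), ?_⟩
    intro S T
    exact (hf0 (Equiv.subtypeEquivRight hcl S) (Equiv.subtypeEquivRight hcl T)).trans (hh _ _)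
  refine ⟨I, ?_, ?_, ?_, F, ?_⟩
  · intro i j k hjk
    exact e.symm.injective (hM (e.symm i) hjk)
  · intro i j k hjk
    exact e.symm.injective (hW (e.symm i) hjk)
  · intro i
    obtain ⟨b1, b2, b3, b4⟩ := hb (e.symm i)
    exact ⟨fgr_toNat _ _ b1, fgr_toNat _ _ b2, fgr_toNat _ _ b3, fgr_toNat _ _ b4⟩
  · obtain ⟨f, _⟩ := F
    rw [← Nat.card_congr f]
    exact hNIS V E (MeetR x lo hi y l r)

end Pool.EUC
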