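import Pool.Agent.H82.EUC.Stmts6

set_option autoImplicit false

namespace Pool.EUC

theorem fgs_idx : ∀ u v : Fin 5, u ≠ v →
    ∃ k l : Fin 5, u ≠ k ∧ u ≠ l ∧ v ≠ k ∧ v ≠ l ∧ k ≠ l := by
  decide

theorem fgs_idx3 : ∀ u v : Fin 3, u ≠ v → ∃ i k : Fin 3, i ≠ k := by
  decide

theorem fgs_thm (hFAG : FAG_S) (hPWI : PWS_S) (hK5 : K5S_S) (hK33 : K33_S) : FGS_S := by
  intro n I hI μ0 μ2 V G hG hex
  have hM := hI.iM
  have hW := hI.iW
  obtain ⟨f, hf⟩ := hex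
  obtain ⟨F, hF⟩ := hFAG (Fin n) I.dM I.dW hM hW μ0 μ2 V G f hf
  obtain ⟨β, Φ, h⟩ := hPWI n I hI V G F hF
  rcases hG with ⟨c, p, hc, hd⟩ | ⟨a, b, p, ha, hb, hab, hd⟩
  · refine hK5 (fun i j k => Φ (c i) (c j) (p i j) (c k)) (fun k => β (c k)) ?_ ?_
    · intro u v huv
      by_contra hne
      obtain ⟨k, l, h1, h2, h3, h4, h5⟩ := fgs_idx u v hne
      have hx := h (c u) (c k) (c v) (c l) (p u k) (p v l) (hc.ne h1) (hc.ne h4)
        (hd u k v l h1 h4 hne h2 (Ne.symm h3) h5)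
      exact hx.2.1 huv
    · intro i j k l hij hkl hik hjk hjl
      exact (h (c i) (c j) (c k) (c l) (p i j) (p k l) (hc.ne (ne_of_lt hij))
        (hc.ne (ne_of_lt hkl)) (hd i j k l (ne_of_lt hij) (ne_of_lt hkl) (ne_of_lt hik)
          (ne_of_lt (lt_trans hik hkl)) hjk hjl)).1
  · refine hK33 (fun i j k => Φ (a i) (b j) (p i j) (a k))
      (fun i j l => Φ (a i) (b j) (p i j) (b l)) (fun i => β (a i)) (fun j => β (b j)) ?_ ?_
    · intro u v huv
      by_contra hne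
      obtain ⟨i, k, hik⟩ := fgs_idx3 u v hne
      exact (h (a i) (b u) (a k) (b v) (p i u) (p k v) (hab i u) (hab k v)
        (hd i u k v hik hne)).2.2 huv
    · intro i j k l hik hjl
      exact (h (a i) (b j) (a k) (b l) (p i j) (p k l) (hab i j) (hab k l)
        (hd i j k l (ne_of_lt hik) hjl)).1

end Pool.EUC
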