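import Pool.Agent.H82.EUC.Stmts2

set_option autoImplicit false

namespace Pool.EUC

theorem fij_idx : ∀ u v : Fin 5, u ≠ v →
    ∃ k l : Fin 5, u ≠ k ∧ u ≠ l ∧ v ≠ k ∧ v ≠ l ∧ k ≠ l := by
  decide

theorem fij_thm (hFAJ : FAJ_S) (hBAS : BAS_S) (hWLK : WLK_S) (hSEQ : SEQ_S) (hXPT : XPT_S)
    (hXNG : XNG_S) (hPAI : PAI_S) (hK5 : K5S_S) : FIJ_S := by
  intro n I hM hW μ0 μ2 V G hG hex
  obtain ⟨f, hf⟩ := hex
  have e := SimpleGraph.topEmbeddingOfNotCliqueFree hG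
  have hadj : ∀ i j : Fin 5, i ≠ j → G.Adj (e i) (e j) := by
    intro i j hij
    exact (e.map_rel_iff').2 hij
  obtain ⟨F, hF⟩ := hFAJ (Fin n) I.dM I.dW hM hW μ0 μ2 V G f hf (fun i => e i) e.injective hadj
  obtain ⟨mb, hmb⟩ := hBAS (Fin n) I.dM I.dW hM hW F hF
  have hw := hWLK (Fin n) I.dM I.dW hM hW F hF mb hmb
  have key : ∀ u v : Fin 5, ∃ (N : ℕ) (z : ℕ → Fin n × Fin n), u ≠ v →
      (z 0 = (F.o (mb u), mb u) ∧ z N = (F.o (mb v), mb v) ∧
        (∀ t < N, StE I.dM I.dW F u v (z t) (z (t + 1))) ∧ ∀ s ≤ N, PtE F u v (z s)) := by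
    intro u v
    by_cases huv : u = v
    · exact ⟨0, fun _ => (F.o (mb u), mb u), fun h => absurd huv h⟩
    · obtain ⟨h1, h2, h3⟩ := hw u v huv
      obtain ⟨N, z, hz0, hzN, hs⟩ := hSEQ _ _ _ _ h3
      refine ⟨N, z, fun _ => ⟨hz0, hzN, hs, ?_⟩⟩
      intro s hsN
      rcases Nat.lt_or_ge s N with h | h
      · exact (hs s h).1
      · have : s = N := le_antisymm hsN h
        rw [this, hzN]
        exact h2
  choose N z hz using key
  have hβ : Function.Injective (fun k : Fin 5 => I.posM (mb k)) := by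
    intro u v huv
    by_contra hne
    obtain ⟨k, l, h1, h2, h3, h4, h5⟩ := fij_idx u v hne
    have hx := hXPT n I hM hW F hF u k v l h1 hne h2 (Ne.symm h3) h5 h4
      (F.o (mb u), mb u) (F.o (mb v), mb v) (hw u k h1).1 (hw v l h4).1
    exact hx.2 huv
  refine hK5 (fun i j k => ph (fun s => (I.posW (z i j s).1, I.posM (z i j s).2)) (N i j)
    (I.posW (F.o (mb k)), I.posM (mb k))) (fun k => I.posM (mb k)) hβ ?_
  intro i j k l hij hkl hik hjk hjl
  have hij' : i ≠ j := ne_of_lt hij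
  have hkl' : k ≠ l := ne_of_lt hkl
  have hik' : i ≠ k := ne_of_lt hik
  have hil' : i ≠ l := ne_of_lt (lt_trans hik hkl)
  obtain ⟨a1, a2, a3, a4⟩ := hz i j hij'
  obtain ⟨b1, b2, b3, b4⟩ := hz k l hkl'
  have hp := hPAI (fun s => (I.posW (z i j s).1, I.posM (z i j s).2))
    (fun s => (I.posW (z k l s).1, I.posM (z k l s).2)) (N i j) (N k l)
    (by
      intro s hs r hr
      exact hXPT n I hM hW F hF i j k l hij' hik' hil' hjk hjl hkl' _ _ (a4 s hs) (b4 r hr))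
    (by
      intro s hs r hr
      exact hXNG n I hM hW F hF i j k l hij' hik' hil' hjk hjl hkl' _ _ _ _ (a3 s hs) (b3 r hr))
    (by
      intro s hs r hr
      exact hXNG n I hM hW F hF k l i j hkl' (Ne.symm hik') (Ne.symm hjk) (Ne.symm hil')
        (Ne.symm hjl) hij' _ _ _ _ (b3 r hr) (a3 s hs))
  simp only [a1, a2, b1, b2] at hp
  exact hp

end Pool.EUC
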