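import Pool.Agent.H82.EUC.Stmts6

set_option autoImplicit false

namespace Pool.EUC

theorem fps_thm (hLAT : LAT_S) (hPDM : PDM_S) (hPDW : PDW_S) (hPDX : PDX_S) (hPCO : PCO_S)
    (hPCV : PCV_S) (hGE1 : GS1_S) (hGE2 : GS2_S) (hGE3 : GS3_S) : FPS_S := by
  intro n I hI μ0 μ2 P _ f hf
  have hM := hI.iM
  have hW := hI.iW
  obtain ⟨g, hg⟩ : ∃ g, IsLat P I.dM I.dW g :=
    ⟨_, hLAT (Fin n) I.dM I.dW hM hW μ0 μ2 P f hf⟩
  refine ⟨fun x => figureS I (g (LowerSet.Iio x)) (g (LowerSet.Iic x)), ?_, ?_, ?_⟩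
  · intro x
    refine hGE1 n I _ _ ?_ (hg.mono _ _ ?_) (hPCO (Fin n) P I.dM I.dW hM hW g hg x)
    · intro h
      have h1 := hg.inj h
      have hx : x ∈ LowerSet.Iio x := by
        rw [h1]
        exact LowerSet.mem_Iic_iff.2 (le_refl x)
      exact lt_irrefl x (LowerSet.mem_Iio_iff.1 hx)
    · intro y hy
      exact le_of_lt (LowerSet.mem_Iio_iff.1 hy)
  · intro x y hxy hyx
    refine hGE2 n I hI _ _ _ _ (hPDM (Fin n) P I.dM I.dW hM hW g hg x y hxy hyx)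
      (hPDW (Fin n) P I.dM I.dW hM hW g hg x y hxy hyx) ?_ ?_
    · intro m w h1 h2 h3 h4
      exact hPDX (Fin n) P I.dM I.dW hM hW g hg x y hxy hyx m w ⟨h1, h2, h3, h4⟩
    · intro m w h1 h2 h3 h4
      exact hPDX (Fin n) P I.dM I.dW hM hW g hg y x hyx hxy m w ⟨h1, h2, h3, h4⟩
  · intro x y hxy
    refine hGE3 n I _ _ _ _ ?_
    rcases hPCV (Fin n) P I.dM I.dW hM hW g hg x y hxy with ⟨m, h1, h2⟩ | ⟨m, w, h⟩ | ⟨m, w, h⟩
    · exact Or.inl ⟨m, h1, h2⟩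
    · exact Or.inr (Or.inl ⟨m, w, h.1, h.2.1, h.2.2.1, h.2.2.2⟩)
    · exact Or.inr (Or.inr ⟨m, w, h.1, h.2.1, h.2.2.1, h.2.2.2⟩)

end Pool.EUC
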