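import Pool.Agent.H82.EUC.Stmts3

set_option autoImplicit false

namespace Pool.EUC

theorem pwi_thm (hBAG : BAG_S) (hCAT : CAT_S) (hXPG : XPG_S) (hXNH : XNH_S) (hPAI : PAI_S) :
    PWI_S := by
  intro n I hM hW V G F hF
  obtain ⟨mb, hmb⟩ := hBAG (Fin n) V G I.dM I.dW hM hW F hF
  have hcat := hCAT (Fin n) V G I.dM I.dW hM hW F hF mb hmb
  have key : ∀ (u v : V) (p : G.Walk u v), ∃ (N : ℕ) (z : ℕ → Fin n × Fin n), u ≠ v →
      (z 0 = (F.o (mb u), mb u) ∧ z N = (F.o (mb v), mb v) ∧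
      (∀ s < N, ∃ x y, x ∈ p.support ∧ y ∈ p.support ∧ G.Adj x y ∧
        StG I.dM I.dW F x y (z s) (z (s + 1))) ∧
      (∀ s ≤ N, ∃ x y, x ∈ p.support ∧ y ∈ p.support ∧ G.Adj x y ∧ PtG F x y (z s))) := by
    intro u v p
    by_cases huv : u = v
    · exact ⟨0, fun _ => (F.o (mb u), mb u), fun h => absurd huv h⟩
    · obtain ⟨N, z, h⟩ := hcat u v p huv
      exact ⟨N, z, fun _ => h⟩
  choose N z hz using key
  have hpt : ∀ (u v k l : V) (p : G.Walk u v) (q : G.Walk k l), p.support.Disjoint q.support →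
      ∀ x t : Fin n × Fin n,
      (∃ a b, a ∈ p.support ∧ b ∈ p.support ∧ G.Adj a b ∧ PtG F a b x) →
      (∃ a b, a ∈ q.support ∧ b ∈ q.support ∧ G.Adj a b ∧ PtG F a b t) →
      I.posW x.1 ≠ I.posW t.1 ∧ I.posM x.2 ≠ I.posM t.2 := by
    intro u v k l p q hd x t hx ht
    obtain ⟨a, b, ha, hb, hab, h1⟩ := hx
    obtain ⟨a', b', ha', hb', hab', h2⟩ := ht
    exact hXPG n I hM hW V G F hF a b a' b' hab hab'
      (fun h => hd ha (h ▸ ha')) (fun h => hd ha (h ▸ hb'))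
      (fun h => hd hb (h ▸ ha')) (fun h => hd hb (h ▸ hb')) x t h1 h2
  have hcr : ∀ (u v k l : V) (p : G.Walk u v) (q : G.Walk k l), p.support.Disjoint q.support →
      ∀ x x' t t' : Fin n × Fin n,
      (∃ a b, a ∈ p.support ∧ b ∈ p.support ∧ G.Adj a b ∧ StG I.dM I.dW F a b x x') →
      (∃ a b, a ∈ q.support ∧ b ∈ q.support ∧ G.Adj a b ∧ StG I.dM I.dW F a b t t') →
      ¬ (I.posW x.1 ∈ Set.uIcc (I.posW t.1) (I.posW t'.1) ∧
        I.posM t'.2 ∈ Set.uIcc (I.posM x.2) (I.posM x'.2)) := by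
    intro u v k l p q hd x x' t t' hx ht
    obtain ⟨a, b, ha, hb, hab, h1⟩ := hx
    obtain ⟨a', b', ha', hb', hab', h2⟩ := ht
    exact hXNH n I hM hW V G F hF a b a' b' hab hab'
      (fun h => hd ha (h ▸ ha')) (fun h => hd ha (h ▸ hb'))
      (fun h => hd hb (h ▸ ha')) (fun h => hd hb (h ▸ hb')) x x' t t' h1 h2
  refine ⟨fun x => I.posM (mb x), fun u v p x =>
    ph (fun s => (I.posW (z u v p s).1, I.posM (z u v p s).2)) (N u v p)
      (I.posW (F.o (mb x)), I.posM (mb x)), ?_⟩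
  intro u v k l p q huv hkl hd
  obtain ⟨a1, a2, a3, a4⟩ := hz u v p huv
  obtain ⟨b1, b2, b3, b4⟩ := hz k l q hkl
  refine ⟨?_, ?_, ?_⟩
  · have hp := hPAI (fun s => (I.posW (z u v p s).1, I.posM (z u v p s).2))
      (fun s => (I.posW (z k l q s).1, I.posM (z k l q s).2)) (N u v p) (N k l q)
      (by
        intro s hs r hr
        exact hpt u v k l p q hd _ _ (a4 s hs) (b4 r hr))
      (by
        intro s hs r hr
        exact hcr u v k l p q hd _ _ _ _ (a3 s hs) (b3 r hr))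
      (by
        intro s hs r hr
        exact hcr k l u v q p (fun x h1 h2 => hd h2 h1) _ _ _ _ (b3 r hr) (a3 s hs))
    simp only [a1, a2, b1, b2] at hp
    exact hp
  · have h := hpt u v k l p q hd _ _ (a4 0 (Nat.zero_le _)) (b4 0 (Nat.zero_le _))
    rw [a1, b1] at h
    exact h.2
  · have h := hpt u v k l p q hd _ _ (a4 _ (le_refl _)) (b4 _ (le_refl _))
    rw [a2, b2] at h
    exact h.2

end Pool.EUC
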