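import Pool.Agent.H82.EUC.Res
import Pool.Agent.H82.EUC.FIG
import Pool.Agent.H82.EUC.FIP
import Pool.Agent.H82.EUC.PWI
import Pool.Agent.H24.EUC.XNH
import Pool.Agent.H24.EUC.K5S
import Pool.Agent.H24.EUC.SEQ
import Pool.Agent.H63.EUC.K33
import Pool.Agent.H80.EUC.FAG
import Pool.Agent.H80.EUC.PDW
import Pool.Agent.H91.EUC.GE1
import Pool.Agent.H40.EUC.BAG
import Pool.Agent.H40.EUC.PCV
import Pool.Agent.H33.EUC.GLU
import Pool.Agent.H65.EUC.MET
import Pool.Agent.H46.EUC.PAI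
import Pool.Agent.H72.EUC.OPP
import Pool.Agent.H66.EUC.MTI
import Pool.Agent.H85.EUC.DMG
import Pool.Agent.H21.EUC.LAT
import Pool.Agent.H48.EUC.DWG
import Pool.Agent.H41.EUC.DXG
import Pool.Agent.H50.EUC.XPG
import Pool.Agent.H62.EUC.GE2
import Pool.Agent.H1.EUC.PCO
import Pool.Agent.H1.EUC.GE3
import Pool.Agent.H14.EUC.JET
import Pool.Agent.H55.EUC.PDX
import Pool.Agent.H99.EUC.WLG
import Pool.Agent.H99.EUC.CAT
import Pool.Agent.H26.EUC.PSH
import Pool.Agent.H36.EUC.PDM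
import Pool.Agent.H82.EUC.CONN

set_option autoImplicit false

namespace Pool.EUC

theorem main_thm : RES_S := by
  have hOPP := opp_thm
  have hMET := met_thm
  have hCON := con82_thm (glu_thm hOPP)
  have hDM := dmg_thm hOPP
  have hDW := dwg_thm
  have hXP := xpg_thm hDM hDW
  have hXN := xnh_thm hXP (dxg_thm hOPP hDM)
  have hPWI := pwi_thm (bag_thm hOPP) (cat_thm (wlg_thm hOPP hCON) seq_thm) hXP hXN pai_thm
  have hPDM := pdm_thm hOPP
  have hFIP := fip_thm (lat_thm hMET (jet_thm hMET)) hPDM pdw_thm (pdx_thm hOPP hPDM)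
    (pco_thm hCON) (pcv_thm hCON psh_thm) ge1_thm ge2_thm ge3_thm
  exact res_thm (fig_thm (fag_thm (mtj_thm hMET)) hPWI k5s_thm k33_thm) hFIP

end Pool.EUC
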