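import Pool.Agent.H82.EUC.FGR
import Pool.Agent.H31.EUC.BKO
import Pool.Agent.H31.EUC.BKI
import Pool.Agent.H31.EUC.BKC
import Pool.Agent.H41.EUC.BKE
import Pool.Agent.H53.EUC.GDE
import Pool.Agent.H63.EUC.GDI
import Pool.Agent.H52.EUC.NIS
import Pool.Agent.H16.EUC.GDC
import Pool.Agent.H62.EUC.RK0
import Pool.Agent.H40.EUC.RNK
import Pool.Agent.H27.EUC.BND
import Pool.Agent.H81.EUC.TRN
import Pool.Agent.H65.EUC.MET
import Pool.Agent.H14.EUC.JET
import Pool.Agent.H82.EUC.BKS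
import Pool.Agent.H86.EUC.GDA

set_option autoImplicit false

namespace Pool.EUC

theorem mainB_thm : FGR_S := by
  have hMET := met_thm
  have hBKS := bks82_thm
  have hBKO := bko_thm hMET (jet_thm hMET) hBKS
  have hBKC := bkc_thm (bki_thm hBKO)
  exact fgr_thm (bke_thm hBKS hBKC) gdi_thm gda_thm Pool.H16.EUC.GDC gde_thm (rnk_thm rk0_thm)
    bnd_thm trn_thm nis_thm

end Pool.EUC
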