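import Pool.Agent.H82.EUC.Stmts6

/-!
Row XNS of the board euc, after row XNH of helper24.
-/

set_option autoImplicit false

namespace Pool.EUC

theorem xns82_uIcc {n : ℕ} {x d : Fin n → ℝ} (hx : Function.Injective x)
    (hq : ∀ a b c, x a < x b → x b < x c → d b ≤ max (d a) (d c)) {a b c : Fin n}
    (h : x c ∈ Set.uIcc (x a) (x b)) : d c ≤ d a ∨ d c ≤ d b := by
  rw [Set.mem_uIcc] at h
  rcases h with ⟨h1, h2⟩ | ⟨h1, h2⟩
  · rcases h1.lt_or_eq with h3 | h3
    · rcases h2.lt_or_eq with h4 | h4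
      · exact le_max_iff.1 (hq a c b h3 h4)
      · exact Or.inr (le_of_eq (by rw [hx h4]))
    · exact Or.inl (le_of_eq (by rw [hx h3]))
  · rcases h1.lt_or_eq with h3 | h3
    · rcases h2.lt_or_eq with h4 | h4
      · exact (le_max_iff.1 (hq b c a h3 h4)).symm
      · exact Or.inl (le_of_eq (by rw [hx h4]))
    · exact Or.inr (le_of_eq (by rw [hx h3]))

theorem xns82_thm (h1 : XPS_S) (h2 : DXG_S) : XNS_S := by
  intro n I hI V G F hF u v k l huv hkl huk hul hvk hvl z z' t t' hz ht hc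
  obtain ⟨pz, pz', _, _, hzV⟩ := hz
  obtain ⟨pt, pt', hH1, hH2, _⟩ := ht
  obtain ⟨hc1, hc2⟩ := hc
  have hM := hI.iM
  have hW := hI.iW
  rcases hzV with he | ⟨hV1, hV2⟩
  · rw [he, Set.uIcc_self, Set.mem_singleton_iff] at hc2
    exact (h1 n I hI V G F hF u v k l huv hkl huk hul hvk hvl z' t' pz' pt').2 hc2.symm
  · have hd : I.dM t'.2 z.1 ≤ I.dM t'.2 (F.b k l t'.2) := by
      rcases xns82_uIcc (d := I.dM t'.2) hI.jW (hI.qM t'.2) hc1 with h | h
      · exact le_trans h hH1.2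
      · exact le_trans h hH2.2
    have hv : VSG I.dW F u v z.1 t'.2 := by
      rcases xns82_uIcc (d := I.dW z.1) hI.jM (hI.qW z.1) hc2 with h | h
      · rcases hV1 with ⟨a, b⟩ | ⟨a, b⟩
        · exact Or.inl ⟨a, le_trans h b⟩
        · exact Or.inr ⟨a, le_trans h b⟩
      · rcases hV2 with ⟨a, b⟩ | ⟨a, b⟩
        · exact Or.inl ⟨a, le_trans h b⟩
        · exact Or.inr ⟨a, le_trans h b⟩
    rcases hH1.1 with hm | hm
    · rcases hv with ⟨a, b⟩ | ⟨a, b⟩
      · exact h2 (Fin n) V G I.dM I.dW hM hW F hF k l v u hkl huv.symm hvk.symm huk.symm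
          hvl.symm hul.symm t'.2 z.1 hm a hd b
      · exact h2 (Fin n) V G I.dM I.dW hM hW F hF k l u v hkl huv huk.symm hvk.symm
          hul.symm hvl.symm t'.2 z.1 hm a hd b
    · rw [hF.bsymm k l] at hd
      rcases hv with ⟨a, b⟩ | ⟨a, b⟩
      · exact h2 (Fin n) V G I.dM I.dW hM hW F hF l k v u hkl.symm huv.symm hvl.symm hul.symm
          hvk.symm huk.symm t'.2 z.1 hm a hd b
      · exact h2 (Fin n) V G I.dM I.dW hM hW F hF l k u v hkl.symm huv hul.symm hvl.symm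
          huk.symm hvk.symm t'.2 z.1 hm a hd b

end Pool.EUC
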