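import Pool.Agent.H82.EUC.ResS
import Pool.Agent.H82.EUC.FGS
import Pool.Agent.H82.EUC.FPS
import Pool.Agent.H82.EUC.PWS
import Pool.Agent.H82.EUC.XNS
import Pool.Agent.H82.EUC.CONN
import Pool.Agent.H50.EUC.XPS
import Pool.Agent.H91.EUC.GS1
import Pool.Agent.H62.EUC.GS2
import Pool.Agent.H1.EUC.GS3
import Pool.Agent.H24.EUC.K5S
import Pool.Agent.H24.EUC.SEQ
import Pool.Agent.H63.EUC.K33
import Pool.Agent.H80.EUC.FAG
import Pool.Agent.H80.EUC.PDW
import Pool.Agent.H40.EUC.BAG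
import Pool.Agent.H40.EUC.PCV
import Pool.Agent.H33.EUC.GLU
import Pool.Agent.H65.EUC.MET
import Pool.Agent.H46.EUC.PAI
import Pool.Agent.H72.EUC.OPP
import Pool.Agent.H66.EUC.MTI
import Pool.Agent.H85.EUC.DMG
import Pool.Agent.H21.EUC.LAT
import Pool.Agent.H48.EUC.DWG
import Pool.Agent.H41.EUC.DXG
import Pool.Agent.H1.EUC.PCO
import Pool.Agent.H14.EUC.JET
import Pool.Agent.H55.EUC.PDX
import Pool.Agent.H99.EUC.WLG
import Pool.Agent.H99.EUC.CAT
import Pool.Agent.H26.EUC.PSH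
import Pool.Agent.H36.EUC.PDM

set_option autoImplicit false

namespace Pool.EUC

theorem mainC_thm : RESS_S := by
  have hOPP := opp_thm
  have hMET := met_thm
  have hCON := con82_thm (glu_thm hOPP)
  have hDM := dmg_thm hOPP
  have hXP := xps_thm hDM dwg_thm
  have hXN := xns82_thm hXP (dxg_thm hOPP hDM)
  have hPWI := pws_thm (bag_thm hOPP) (cat_thm (wlg_thm hOPP hCON) seq_thm) hXP hXN pai_thm
  have hPDM := pdm_thm hOPP
  have hFIP := fps_thm (lat_thm hMET (jet_thm hMET)) hPDM pdw_thm (pdx_thm hOPP hPDM)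
    (pco_thm hCON) (pcv_thm hCON psh_thm) gs1_thm gs2_thm gs3_thm
  exact ress_thm (fgs_thm (fag_thm (mtj_thm hMET)) hPWI k5s_thm k33_thm) hFIP

end Pool.EUC
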