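import Pool.Agent.H82.EUC.Stmts4

set_option autoImplicit false

namespace Pool.EUC

/-- Every man likes his partner in `τ` at least as much as his partner in `σ`. -/
def MLe {A : Type} (dM : A → A → ℝ) (σ τ : Equiv.Perm A) : Prop :=
  ∀ m, dM m (τ m) ≤ dM m (σ m)

/-- The set `K` with the relation `r` is isomorphic to the set of the matchings `σ` with `Q σ`, with
the relation `le`. -/
def Iso {K A : Type} (r : K → K → Prop) (Q : Equiv.Perm A → Prop)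
    (le : Equiv.Perm A → Equiv.Perm A → Prop) : Prop :=
  ∃ f : K ≃ {σ : Equiv.Perm A // Q σ}, ∀ S T, r S T ↔ le (f S).1 (f T).1

/-- The instance with men and women interchanged. -/
def Inst.sw {n : ℕ} (I : Inst n) : Inst n :=
  { prefM := I.prefW, posM := I.posW, prefW := I.prefM, posW := I.posM }

/-- An isomorphism onto the whole set is one onto an interval. -/
theorem iso_itv {K A : Type} (r : K → K → Prop) (b t : K) (hb : ∀ S, r b S) (ht : ∀ S, r S t)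
    (Q : Equiv.Perm A → Prop)
    (le : Equiv.Perm A → Equiv.Perm A → Prop) (h : Iso r Q le) :
    ∃ μ0 μ2, Iso r (fun σ => Q σ ∧ le μ0 σ ∧ le σ μ2) le := by
  obtain ⟨f, hf⟩ := h
  refine ⟨(f b).1, (f t).1, ?_⟩
  have h1 : ∀ σ : {σ : Equiv.Perm A // Q σ}, le (f b).1 σ.1 ∧ le σ.1 (f t).1 := by
    intro σ
    have h2 := (hf b (f.symm σ)).1 (hb _)
    have h3 := (hf (f.symm σ) t).1 (ht _)
    rw [Equiv.apply_symm_apply] at h2 h3
    exact ⟨h2, h3⟩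
  refine ⟨f.trans (Equiv.subtypeEquivRight (fun σ => ?_)), fun S T => hf S T⟩
  constructor
  · intro h
    exact ⟨h, h1 ⟨σ, h⟩⟩
  · intro h
    exact h.1

/-- Interchanging men and women. -/
theorem iso_sw {n : ℕ} (I : Inst n) {K : Type} (r : K → K → Prop) (μ0 μ2 : Equiv.Perm (Fin n))
    (h : Iso r (fun σ => Stb I.dM I.dW σ ∧ MLe I.dM μ0 σ ∧ MLe I.dM σ μ2) (MLe I.dM)) :
    Iso r (fun σ => Stb I.sw.dM I.sw.dW σ ∧ WLe I.sw.dW μ0.symm σ ∧ WLe I.sw.dW σ μ2.symm)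
      (WLe I.sw.dW) := by
  obtain ⟨f, hf⟩ := h
  refine ⟨f.trans
    { toFun := fun σ => ⟨σ.1.symm, ?_, ?_, ?_⟩
      invFun := fun σ => ⟨σ.1.symm, ?_, ?_, ?_⟩
      left_inv := ?_
      right_inv := ?_ }, ?_⟩
  · intro m w hb
    exact σ.2.1 w m ⟨hb.2, hb.1⟩
  · exact σ.2.2.1
  · exact σ.2.2.2
  · intro m w hb
    exact σ.2.1 w m ⟨hb.2, hb.1⟩
  · exact σ.2.2.1
  · exact σ.2.2.2
  · intro σ
    rfl
  · intro σ
    rfl
  · intro S T
    exact hf S T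

/-- Reduction of all cases to an interval in the order of the women. -/
theorem iso_red {n : ℕ} (I : Inst n) (hM : Inj I.dM) (hW : Inj I.dW)
    (le : Equiv.Perm (Fin n) → Equiv.Perm (Fin n) → Prop) (hle : le = WLe I.dW ∨ le = MLe I.dM)
    (Q : Equiv.Perm (Fin n) → Prop) (hQ : Q = Stb I.dM I.dW ∨
      ∃ μ0 μ2, Q = fun σ => Stb I.dM I.dW σ ∧ le μ0 σ ∧ le σ μ2)
    {K : Type} (r : K → K → Prop) (b t : K) (hb : ∀ S, r b S) (ht : ∀ S, r S t)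
    (h : Iso r Q le) :
    ∃ J : Inst n, Inj J.dM ∧ Inj J.dW ∧ ∃ μ0 μ2,
      Iso r (fun σ => Stb J.dM J.dW σ ∧ WLe J.dW μ0 σ ∧ WLe J.dW σ μ2) (WLe J.dW) := by
  have h1 : ∃ μ0 μ2, Iso r (fun σ => Stb I.dM I.dW σ ∧ le μ0 σ ∧ le σ μ2) le := by
    rcases hQ with rfl | ⟨μ0, μ2, rfl⟩
    · exact iso_itv r b t hb ht _ _ h
    · exact ⟨μ0, μ2, h⟩
  obtain ⟨μ0, μ2, h2⟩ := h1
  rcases hle with rfl | rfl
  · exact ⟨I, hM, hW, μ0, μ2, h2⟩
  · exact ⟨I.sw, hW, hM, μ0.symm, μ2.symm, iso_sw I r μ0 μ2 h2⟩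

/-- The statement of the result. -/
def RES_S : Prop := ∀ (n : ℕ) (I : Inst n), Inj I.dM → Inj I.dW →
  ∀ le : Equiv.Perm (Fin n) → Equiv.Perm (Fin n) → Prop, (le = WLe I.dW ∨ le = MLe I.dM) →
  ∀ Q : Equiv.Perm (Fin n) → Prop, (Q = Stb I.dM I.dW ∨
    ∃ μ0 μ2, Q = fun σ => Stb I.dM I.dW σ ∧ le μ0 σ ∧ le σ μ2) →
  (∀ (P : Type) [PartialOrder P], Iso (fun S T : LowerSet P => S ≤ T) Q le →
    ∃ F : P → Set (ℝ × ℝ), (∀ x, IsCompact (F x) ∧ IsPathConnected (F x)) ∧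
      (∀ x y, ¬ x ≤ y → ¬ y ≤ x → Disjoint (F x) (F y)) ∧
      ∀ x y, x ⋖ y → (F x ∩ F y).Nonempty) ∧
  ∀ (V : Type) (G : SimpleGraph V), HasK5 G ∨ HasK33 G →
    ¬ Iso (fun S T : {S : Set (V ⊕ G.edgeSet) // Clo G S} => S.1 ⊆ T.1) Q le

theorem res_thm (h1 : FIG_S) (h2 : FIP_S) : RES_S := by
  intro n I hM hW le hle Q hQ
  constructor
  · intro P _ h
    obtain ⟨J, hJM, hJW, μ0, μ2, f, hf⟩ := iso_red I hM hW le hle Q hQ _ ⊥ ⊤
      (fun _ => bot_le) (fun _ => le_top) h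
    exact h2 n J hJM hJW μ0 μ2 P f hf
  · intro V G hG h
    obtain ⟨J, hJM, hJW, μ0, μ2, hj⟩ := iso_red I hM hW le hle Q hQ
      (fun S T : {S : Set (V ⊕ G.edgeSet) // Clo G S} => S.1 ⊆ T.1)
      ⟨∅, fun v e _ he => absurd he (Set.notMem_empty _)⟩
      ⟨Set.univ, fun v e _ _ => Set.mem_univ _⟩
      (fun _ => Set.empty_subset _) (fun _ => Set.subset_univ _) h
    exact h1 n J hJM hJW μ0 μ2 V G hG hj

end Pool.EUC
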