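import Pool.Agent.H82.EUC.Stmts5
import Pool.Agent.H82.EUC.Res
import Pool.Agent.H81.EUC.TRN

set_option autoImplicit false

namespace Pool.EUC

section
variable {P : Type} (k : P → ℕ) (N : ℕ)

/-- Positions of the women. -/
def onePos : P × Bool → ℤ
  | (b, false) => 4 * (k b : ℤ)
  | (b, true) => 4 * ((N : ℤ) + k b)

/-- Preference points of the men. -/
def onePref : P × Bool → ℤ
  | (b, false) => 4 * (k b : ℤ) - 1
  | (b, true) => 4 * ((N : ℤ) + k b) - 1

/-- Distances of the men. -/
def oneM (m w : P × Bool) : ℝ := |(onePref k N m : ℝ) - (onePos k N w : ℝ)|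

/-- Index of a person. -/
def oneIdx (z : P × Bool) : ℕ := 2 * k z.1 + z.2.toNat

open Classical in
/-- Badness of the men for the women. -/
noncomputable def oneR [PartialOrder P] (w m : P × Bool) : ℕ :=
  if m.1 = w.1 then (if m.2 = w.2 then 2 * N + 1 else 0)
  else if w.1 < m.1 then 1 + oneIdx k m else 2 * N + 2 + oneIdx k m

/-- Badness of the men for the women, real. -/
noncomputable def oneW [PartialOrder P] (w m : P × Bool) : ℝ := (oneR k N w m : ℝ)

end

theorem one_ltM {P : Type} (k : P → ℕ) (N : ℕ) (m w w' : P × Bool) :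
    oneM k N m w < oneM k N m w' ↔
    max (onePref k N m - onePos k N w) (-(onePref k N m - onePos k N w)) <
      max (onePref k N m - onePos k N w') (-(onePref k N m - onePos k N w')) := by
  unfold oneM
  rw [← abs_eq_max_neg, ← abs_eq_max_neg]
  exact_mod_cast Iff.rfl

theorem one_leM {P : Type} (k : P → ℕ) (N : ℕ) (m w w' : P × Bool) :
    oneM k N m w ≤ oneM k N m w' ↔
    max (onePref k N m - onePos k N w) (-(onePref k N m - onePos k N w)) ≤
      max (onePref k N m - onePos k N w') (-(onePref k N m - onePos k N w')) := by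
  unfold oneM
  rw [← abs_eq_max_neg, ← abs_eq_max_neg]
  exact_mod_cast Iff.rfl

/-- Positions are injective. -/
theorem one_pos {P : Type} (k : P → ℕ) (N : ℕ) (hk : Function.Injective k) (hN : ∀ b, k b < N)
    (z w : P × Bool) (h : onePos k N z = onePos k N w) : z = w := by
  obtain ⟨b, i⟩ := z
  obtain ⟨c, j⟩ := w
  have h1 := hN b
  have h2 := hN c
  cases i <;> cases j <;> simp only [onePos] at h
  · have : k b = k c := by omega
    rw [hk this]
  · omega
  · omega
  · have : k b = k c := by omega
    rw [hk this]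

theorem one_injM {P : Type} (k : P → ℕ) (N : ℕ) (hk : Function.Injective k) (hN : ∀ b, k b < N) :
    Inj (oneM k N) := by
  intro m w w' h
  have h1 := (one_leM k N m w w').1 h.le
  have h2 := (one_leM k N m w' w).1 h.ge
  refine one_pos k N hk hN w w' ?_
  obtain ⟨b, i⟩ := m
  obtain ⟨c, j⟩ := w
  obtain ⟨c', j'⟩ := w'
  cases i <;> cases j <;> cases j' <;> simp only [onePos, onePref] at h1 h2 ⊢ <;> omega

theorem one_idx {P : Type} (k : P → ℕ) (hk : Function.Injective k) (z w : P × Bool)
    (h : oneIdx k z = oneIdx k w) : z = w := by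
  obtain ⟨b, i⟩ := z
  obtain ⟨c, j⟩ := w
  simp only [oneIdx] at h
  cases i <;> cases j <;> simp only [Bool.toNat_false, Bool.toNat_true] at h
  · rw [hk (show k b = k c by omega)]
  · omega
  · omega
  · rw [hk (show k b = k c by omega)]

theorem one_idx_lt {P : Type} (k : P → ℕ) (N : ℕ) (hN : ∀ b, k b < N) (z : P × Bool) :
    oneIdx k z < 2 * N := by
  obtain ⟨b, i⟩ := z
  have h1 := hN b
  cases i <;> simp only [oneIdx, Bool.toNat_false, Bool.toNat_true] <;> omega

theorem one_injR {P : Type} [PartialOrder P] (k : P → ℕ) (N : ℕ) (hk : Function.Injective k)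
    (hN : ∀ b, k b < N) (w m m' : P × Bool) (h : oneR k N w m = oneR k N w m') : m = m' := by
  have h1 := one_idx_lt k N hN m
  have h2 := one_idx_lt k N hN m'
  unfold oneR at h
  by_cases a : m.1 = w.1 <;> by_cases a' : m'.1 = w.1
  · rw [if_pos a, if_pos a'] at h
    by_cases b : m.2 = w.2 <;> by_cases b' : m'.2 = w.2
    · exact Prod.ext (a.trans a'.symm) (b.trans b'.symm)
    · rw [if_pos b, if_neg b'] at h
      omega
    · rw [if_neg b, if_pos b'] at h
      omega
    · refine Prod.ext (a.trans a'.symm) ?_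
      revert b b'
      cases m.2 <;> cases m'.2 <;> cases w.2 <;> simp
  · rw [if_pos a, if_neg a'] at h
    exfalso
    split_ifs at h <;> omega
  · rw [if_neg a, if_pos a'] at h
    exfalso
    split_ifs at h <;> omega
  · rw [if_neg a, if_neg a'] at h
    refine one_idx k hk m m' ?_
    split_ifs at h <;> omega

theorem one_injW {P : Type} [PartialOrder P] (k : P → ℕ) (N : ℕ) (hk : Function.Injective k)
    (hN : ∀ b, k b < N) : Inj (oneW k N) := by
  intro w m m' h
  refine one_injR k N hk hN w m m' ?_
  unfold oneW at h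
  exact_mod_cast h

theorem one_self {P : Type} [PartialOrder P] (k : P → ℕ) (N : ℕ) (b : P) (i : Bool) :
    oneR k N (b, i) (b, i) = 2 * N + 1 := by
  simp [oneR]

theorem one_other {P : Type} [PartialOrder P] (k : P → ℕ) (N : ℕ) (b : P) (i : Bool) :
    oneR k N (b, i) (b, !i) = 0 := by
  cases i <;> simp [oneR]

theorem one_lt {P : Type} [PartialOrder P] (k : P → ℕ) (N : ℕ) (b c : P) (i j : Bool)
    (h : c < b) : oneR k N (c, j) (b, i) = 1 + oneIdx k (b, i) := by
  simp [oneR, h, h.ne']

theorem one_nlt {P : Type} [PartialOrder P] (k : P → ℕ) (N : ℕ) (b c : P) (i j : Bool)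
    (h : ¬ c < b) (hne : b ≠ c) : oneR k N (c, j) (b, i) = 2 * N + 2 + oneIdx k (b, i) := by
  simp [oneR, h, hne]

theorem one_blk {P : Type} [Finite P] [PartialOrder P] (k : P → ℕ) (N : ℕ)
    (hk : Function.Injective k) (hN : ∀ b, k b < N) :
    IsBlk P (fun c b => c < b) (oneM k N) (oneW k N) := by
  have key : ∀ (b c : P) (i j : Bool), b ≠ c → oneM k N (b, i) (b, i) < oneM k N (b, i) (c, j) := by
    intro b c i j hbc
    have h1 := hN b
    have h2 := hN c
    have h3 : k b ≠ k c := fun h => hbc (hk h)
    rw [one_ltM]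
    cases i <;> cases j <;> simp only [onePos, onePref] <;> omega
  have self : ∀ (b : P) (i : Bool), oneM k N (b, i) (b, i) < oneM k N (b, i) (b, !i) := by
    intro b i
    have h1 := hN b
    rw [one_ltM]
    cases i <;> simp only [onePos, onePref, Bool.not_false, Bool.not_true] <;> omega
  refine ⟨self, ?_, ?_, ?_, ?_, ?_, ?_⟩
  · intro b i
    unfold oneW
    rw [one_self, one_other]
    norm_cast
    omega
  · intro b c i j hbc h1 h2
    have h3 : oneR k N (c, j) (b, i) ≤ oneR k N (c, j) (c, j) := by
      unfold oneW at h2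
      exact_mod_cast h2
    rw [one_self] at h3
    have h4 : c < b := by
      by_contra h
      rw [one_nlt k N b c i j h hbc] at h3
      omega
    refine ⟨h4, key b c i j hbc, ?_⟩
    unfold oneW
    rw [one_other, one_lt k N b c i j h4]
    norm_cast
    omega
  · intro b c h
    have h' : c < b := h
    have h1 := hN b
    have h2 := hN c
    refine ⟨h'.ne', false, false, ?_, ?_⟩
    · rw [one_ltM]
      simp only [onePos, onePref, Bool.not_false]
      omega
    · have h3 := one_idx_lt k N hN (b, false)
      unfold oneW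
      rw [one_self, one_lt k N b c false false h']
      exact_mod_cast (by omega : 1 + oneIdx k (b, false) < 2 * N + 1)
  · refine ⟨fun _ => 0, ?_⟩
    rintro ⟨b, i⟩ ⟨c, j⟩ h
    exfalso
    by_cases hbc : b = c
    · subst hbc
      by_cases hij : j = i
      · subst hij
        exact lt_irrefl _ h
      · have hj : j = !i := by
          cases i <;> cases j <;> simp_all
        rw [hj] at h
        exact lt_asymm h (self b i)
    · exact lt_asymm h (key b c i j hbc)
  · refine ⟨fun _ => 0, ?_⟩
    rintro ⟨b, i⟩ m h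
    exfalso
    have h' : oneW k N (b, i) m < oneW k N (b, i) (b, !i) := h
    unfold oneW at h'
    rw [one_other] at h'
    have : (0 : ℝ) ≤ (oneR k N (b, i) m : ℝ) := Nat.cast_nonneg _
    simp only [Nat.cast_zero] at h'
    linarith
  · refine ⟨fun b => (Set.Iio b).ncard, ?_⟩
    intro b c h
    have h' : c < b := h
    exact Set.ncard_lt_ncard (Set.Iio_ssubset_Iio h') (Set.toFinite _)

/-- One-sided: every finite poset is realised when the men are 1-Euclidean and the women are
arbitrary. -/
def ONE_S : Prop := ∀ (P : Type) [Finite P] [PartialOrder P] (n : ℕ), n = 2 * Nat.card P →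
  ∃ (dM dW : Fin n → Fin n → ℝ) (pref pos : Fin n → ℝ), Inj dM ∧ Inj dW ∧
    (∀ m w, dM m w = |pref m - pos w|) ∧
    Iso (fun S T : LowerSet P => S ≤ T) (Stb dM dW) (WLe dW)

theorem one_thm (hBKE : BKE_S) : ONE_S := by
  intro P _ _ n hn
  obtain ⟨k, hk, hN⟩ : ∃ k : P → ℕ, Function.Injective k ∧ ∀ b, k b < Nat.card P :=
    ⟨fun b => (Finite.equivFin P b : ℕ), fun a b h => (Finite.equivFin P).injective (Fin.ext h),
      fun b => (Finite.equivFin P b).2⟩
  obtain ⟨f0, hf0⟩ := hBKE P (fun c b => c < b) (oneM k (Nat.card P)) (oneW k (Nat.card P))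
    (one_injM k _ hk hN) (one_injW k _ hk hN) (one_blk k _ hk hN)
  have hcard : Nat.card (P × Bool) = n := by
    rw [hn, Nat.card_prod, Nat.card_eq_fintype_card (α := Bool), Fintype.card_bool, mul_comm]
  have e : P × Bool ≃ Fin n := (Finite.equivFin (P × Bool)).trans (finCongr hcard)
  let g : LowerSet P ≃ {S : Set P // Cls (fun c b => c < b) S} :=
    { toFun := fun S => ⟨S, fun b c h hb => S.lower (le_of_lt h) hb⟩
      invFun := fun S => ⟨S.1, by
        intro a b hba ha
        rcases hba.lt_or_eq with h | h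
        · exact S.2 a b h ha
        · rw [h]
          exact ha⟩
      left_inv := fun S => rfl
      right_inv := fun S => rfl }
  refine ⟨fun m w => oneM k (Nat.card P) (e.symm m) (e.symm w),
    fun w m => oneW k (Nat.card P) (e.symm w) (e.symm m),
    fun m => (onePref k (Nat.card P) (e.symm m) : ℝ),
    fun w => (onePos k (Nat.card P) (e.symm w) : ℝ), ?_, ?_, fun m w => rfl, ?_⟩
  · intro i a b hab
    exact e.symm.injective (one_injM k _ hk hN (e.symm i) hab)
  · intro i a b hab
    exact e.symm.injective (one_injW k _ hk hN (e.symm i) hab)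
  · refine ⟨(g.trans f0).trans (Equiv.subtypeEquiv e.permCongr (fun σ => trn_stb _ n e _ _ σ)), ?_⟩
    intro S T
    exact (hf0 (g S) (g T)).trans (trn_wle _ n e _ _ _)

end Pool.EUC
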