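import Pool.Agent.H82.EUC.Stmts4

/-!
Board `euc`, part C: the structure theorem and the nonplanar theorem for single-peaked preferences
(on both sides; 1-Euclidean instances are single-peaked).
-/

set_option autoImplicit false

namespace Pool.EUC

/-- An instance with axes: positions of the men and of the women, and the preferences (smaller is
better). -/
structure SP (n : ℕ) where
  posM : Fin n → ℝ
  posW : Fin n → ℝ
  dM : Fin n → Fin n → ℝ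
  dW : Fin n → Fin n → ℝ

/-- Strict preferences, single-peaked for the axes. -/
structure SP.Ok {n : ℕ} (I : SP n) : Prop where
  iM : Inj I.dM
  iW : Inj I.dW
  jM : Function.Injective I.posM
  jW : Function.Injective I.posW
  qM : ∀ m a b c, I.posW a < I.posW b → I.posW b < I.posW c →
    I.dM m b ≤ max (I.dM m a) (I.dM m c)
  qW : ∀ w a b c, I.posM a < I.posM b → I.posM b < I.posM c →
    I.dW w b ≤ max (I.dW w a) (I.dW w c)

/-- The horizontal segment of the man `m`: the hull of the women at distance at most `r`. -/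
def hsegS {n : ℕ} (I : SP n) (m : Fin n) (r : ℝ) : Set (ℝ × ℝ) :=
  convexHull ℝ {p | ∃ w, I.dM m w ≤ r ∧ p = (I.posW w, I.posM m)}

/-- The vertical segment of the woman `w`: the hull of the men at distance at most `r`. -/
def vsegS {n : ℕ} (I : SP n) (w : Fin n) (r : ℝ) : Set (ℝ × ℝ) :=
  convexHull ℝ {p | ∃ m, I.dW w m ≤ r ∧ p = (I.posW w, I.posM m)}

/-- The figure of the people moved between `μ` and `ν`. -/
def figureS {n : ℕ} (I : SP n) (μ ν : Equiv.Perm (Fin n)) : Set (ℝ × ℝ) :=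
  {p | (∃ m, μ m ≠ ν m ∧ p ∈ hsegS I m (I.dM m (ν m))) ∨
    ∃ w, μ.symm w ≠ ν.symm w ∧ p ∈ vsegS I w (I.dW w (μ.symm w))}

/-- XPS (needs DMG DWG). As XPG; `posW`, `posM` are injective by `jW`, `jM`. -/
def XPS_S : Prop := ∀ (n : ℕ) (I : SP n), I.Ok → ∀ (V : Type)
  (G : SimpleGraph V) (F : FamG (Fin n) V), IsFamG G I.dM I.dW F → ∀ u v k l : V,
  G.Adj u v → G.Adj k l → u ≠ k → u ≠ l → v ≠ k → v ≠ l →
  ∀ z t : Fin n × Fin n, PtG F u v z → PtG F k l t →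
    I.posW z.1 ≠ I.posW t.1 ∧ I.posM z.2 ≠ I.posM t.2

/-- XNS (needs XPS DXG). As XNH: `z.1` between `t.1` and `t'.1` gives
`dM t'.2 z.1 ≤ max (dM t'.2 t.1) (dM t'.2 t'.1)` by `qM` (or `z.1` is one of them, excluded by XPS);
in the same way `qW` for `t'.2` between `z.2` and `z'.2`. -/
def XNS_S : Prop := ∀ (n : ℕ) (I : SP n), I.Ok → ∀ (V : Type)
  (G : SimpleGraph V) (F : FamG (Fin n) V), IsFamG G I.dM I.dW F → ∀ u v k l : V,
  G.Adj u v → G.Adj k l → u ≠ k → u ≠ l → v ≠ k → v ≠ l →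
  ∀ z z' t t' : Fin n × Fin n, StG I.dM I.dW F u v z z' → StG I.dM I.dW F k l t t' →
    ¬ (I.posW z.1 ∈ Set.uIcc (I.posW t.1) (I.posW t'.1) ∧
      I.posM t'.2 ∈ Set.uIcc (I.posM z.2) (I.posM z'.2))

/-- PWS (needs BAG CAT XPS XNS PAI). As PWI. -/
def PWS_S : Prop := ∀ (n : ℕ) (I : SP n), I.Ok → ∀ (V : Type)
  (G : SimpleGraph V) (F : FamG (Fin n) V), IsFamG G I.dM I.dW F →
  ∃ (β : V → ℝ) (Φ : ∀ u v : V, G.Walk u v → V → ZMod 2),
    ∀ (u v k l : V) (p : G.Walk u v) (q : G.Walk k l), u ≠ v → k ≠ l →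
      p.support.Disjoint q.support →
      Φ u v p k + Φ u v p l + Φ k l q u + Φ k l q v +
        (st (β k) (β u) + st (β l) (β u) + st (β k) (β v) + st (β l) (β v)) = 0 ∧
      β u ≠ β k ∧ β v ≠ β l

/-- GS1. As GE1.  The hulls are compact (`Set.Finite.isCompact_convexHull`, a finite type of `w`)
and convex; a moved man's hull contains the point of `ν m`. -/
def GS1_S : Prop := ∀ (n : ℕ) (I : SP n) (μ ν : Equiv.Perm (Fin n)), μ ≠ ν → WLe I.dW μ ν →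
  (∀ m m', μ m ≠ ν m → μ m' ≠ ν m' → Relation.ReflTransGen (RR I.dM I.dW μ ν) m m') →
  IsCompact (figureS I μ ν) ∧ IsPathConnected (figureS I μ ν)

/-- GS2. As GE2.  A point `p` of `hsegS I m r` has `p.2 = posM m` and there are `a`, `c` at distance
at most `r` with `posW a ≤ p.1 ≤ posW c` (take `a`, `c` with minimal and maximal `posW` and
`convexHull_min`); so if `p.1 = posW b` then `dM m b ≤ r` by `qM`.  The same for `vsegS`. -/
def GS2_S : Prop := ∀ (n : ℕ) (I : SP n), I.Ok →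
  ∀ μ ν μ' ν' : Equiv.Perm (Fin n),
  (∀ m, μ m ≠ ν m → μ' m ≠ ν' m → False) →
  (∀ w, μ.symm w ≠ ν.symm w → μ'.symm w ≠ ν'.symm w → False) →
  (∀ m w, μ m ≠ ν m → μ'.symm w ≠ ν'.symm w → I.dM m w ≤ I.dM m (ν m) →
    I.dW w m ≤ I.dW w (μ'.symm w) → False) →
  (∀ m w, μ' m ≠ ν' m → μ.symm w ≠ ν.symm w → I.dM m w ≤ I.dM m (ν' m) →
    I.dW w m ≤ I.dW w (μ.symm w) → False) →
  Disjoint (figureS I μ ν) (figureS I μ' ν')

/-- GS3. A common point.  NOTE: a man `m` moved in both figures: the points of the women at distance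
at most `min (dM m (ν m)) (dM m (ν' m))`, for instance `ν m` or `ν' m`, are in both hulls. -/
def GS3_S : Prop := ∀ (n : ℕ) (I : SP n) (μ ν μ' ν' : Equiv.Perm (Fin n)),
  ((∃ m, μ m ≠ ν m ∧ μ' m ≠ ν' m) ∨
    (∃ m w, μ m ≠ ν m ∧ μ'.symm w ≠ ν'.symm w ∧ I.dM m w ≤ I.dM m (ν m) ∧
      I.dW w m ≤ I.dW w (μ'.symm w)) ∨
    (∃ m w, μ' m ≠ ν' m ∧ μ.symm w ≠ ν.symm w ∧ I.dM m w ≤ I.dM m (ν' m) ∧
      I.dW w m ≤ I.dW w (μ.symm w))) →
  (figureS I μ ν ∩ figureS I μ' ν').Nonempty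

/-- FGS (needs FAG PWS K5S K33). -/
def FGS_S : Prop := ∀ (n : ℕ) (I : SP n), I.Ok → ∀ μ0 μ2 : Equiv.Perm (Fin n),
  ∀ (V : Type) (G : SimpleGraph V), HasK5 G ∨ HasK33 G →
  ¬ ∃ f : {S : Set (V ⊕ G.edgeSet) // Clo G S} ≃
      {σ : Equiv.Perm (Fin n) // Stb I.dM I.dW σ ∧ WLe I.dW μ0 σ ∧ WLe I.dW σ μ2},
    ∀ S T, S.1 ⊆ T.1 ↔ WLe I.dW (f S).1 (f T).1

/-- FPS (needs LAT PDM PDW PDX PCO PCV GS1 GS2 GS3). -/
def FPS_S : Prop := ∀ (n : ℕ) (I : SP n), I.Ok → ∀ μ0 μ2 : Equiv.Perm (Fin n),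
  ∀ (P : Type) [PartialOrder P] (f : LowerSet P ≃ {σ : Equiv.Perm (Fin n) //
      Stb I.dM I.dW σ ∧ WLe I.dW μ0 σ ∧ WLe I.dW σ μ2}),
    (∀ S T, S ≤ T ↔ WLe I.dW (f S).1 (f T).1) →
  ∃ F : P → Set (ℝ × ℝ), (∀ x, IsCompact (F x) ∧ IsPathConnected (F x)) ∧
    (∀ x y, ¬ x ≤ y → ¬ y ≤ x → Disjoint (F x) (F y)) ∧
    ∀ x y, x ⋖ y → (F x ∩ F y).Nonempty

end Pool.EUC
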