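import Pool.Agent.H82.EUC.Res
import Pool.Agent.H82.EUC.Stmts6

set_option autoImplicit false

namespace Pool.EUC

/-- The instance with men and women interchanged. -/
def SP.sw {n : ℕ} (I : SP n) : SP n :=
  { posM := I.posW, posW := I.posM, dM := I.dW, dW := I.dM }

theorem SP.Ok.sw {n : ℕ} {I : SP n} (h : I.Ok) : I.sw.Ok :=
  { iM := h.iW, iW := h.iM, jM := h.jW, jW := h.jM, qM := h.qW, qW := h.qM }

/-- Interchanging men and women. -/
theorem iso_swS {n : ℕ} (dM dW : Fin n → Fin n → ℝ) {K : Type} (r : K → K → Prop)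
    (μ0 μ2 : Equiv.Perm (Fin n))
    (h : Iso r (fun σ => Stb dM dW σ ∧ MLe dM μ0 σ ∧ MLe dM σ μ2) (MLe dM)) :
    Iso r (fun σ => Stb dW dM σ ∧ WLe dM μ0.symm σ ∧ WLe dM σ μ2.symm) (WLe dM) := by
  obtain ⟨f, hf⟩ := h
  refine ⟨f.trans
    { toFun := fun σ => ⟨σ.1.symm, ?_, ?_, ?_⟩
      invFun := fun σ => ⟨σ.1.symm, ?_, ?_, ?_⟩
      left_inv := ?_
      right_inv := ?_ }, ?_⟩
  · intro m w hb
    exact σ.2.1 w m ⟨hb.2, hb.1⟩
  · exact σ.2.2.1
  · exact σ.2.2.2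
  · intro m w hb
    exact σ.2.1 w m ⟨hb.2, hb.1⟩
  · exact σ.2.2.1
  · exact σ.2.2.2
  · intro σ
    rfl
  · intro σ
    rfl
  · intro S T
    exact hf S T

/-- Reduction of all cases to an interval in the order of the women. -/
theorem iso_redS {n : ℕ} (I : SP n) (hI : I.Ok)
    (le : Equiv.Perm (Fin n) → Equiv.Perm (Fin n) → Prop) (hle : le = WLe I.dW ∨ le = MLe I.dM)
    (Q : Equiv.Perm (Fin n) → Prop) (hQ : Q = Stb I.dM I.dW ∨
      ∃ μ0 μ2, Q = fun σ => Stb I.dM I.dW σ ∧ le μ0 σ ∧ le σ μ2)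
    {K : Type} (r : K → K → Prop) (b t : K) (hb : ∀ S, r b S) (ht : ∀ S, r S t)
    (h : Iso r Q le) :
    ∃ J : SP n, J.Ok ∧ ∃ μ0 μ2,
      Iso r (fun σ => Stb J.dM J.dW σ ∧ WLe J.dW μ0 σ ∧ WLe J.dW σ μ2) (WLe J.dW) := by
  have h1 : ∃ μ0 μ2, Iso r (fun σ => Stb I.dM I.dW σ ∧ le μ0 σ ∧ le σ μ2) le := by
    rcases hQ with rfl | ⟨μ0, μ2, rfl⟩
    · exact iso_itv r b t hb ht _ _ h
    · exact ⟨μ0, μ2, h⟩
  obtain ⟨μ0, μ2, h2⟩ := h1
  rcases hle with rfl | rfl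
  · exact ⟨I, hI, μ0, μ2, h2⟩
  · exact ⟨I.sw, hI.sw, μ0.symm, μ2.symm, iso_swS I.dM I.dW r μ0 μ2 h2⟩

/-- The statement of the result for single-peaked preferences. -/
def RESS_S : Prop := ∀ (n : ℕ) (I : SP n), I.Ok →
  ∀ le : Equiv.Perm (Fin n) → Equiv.Perm (Fin n) → Prop, (le = WLe I.dW ∨ le = MLe I.dM) →
  ∀ Q : Equiv.Perm (Fin n) → Prop, (Q = Stb I.dM I.dW ∨
    ∃ μ0 μ2, Q = fun σ => Stb I.dM I.dW σ ∧ le μ0 σ ∧ le σ μ2) →
  (∀ (P : Type) [PartialOrder P], Iso (fun S T : LowerSet P => S ≤ T) Q le →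
    ∃ F : P → Set (ℝ × ℝ), (∀ x, IsCompact (F x) ∧ IsPathConnected (F x)) ∧
      (∀ x y, ¬ x ≤ y → ¬ y ≤ x → Disjoint (F x) (F y)) ∧
      ∀ x y, x ⋖ y → (F x ∩ F y).Nonempty) ∧
  ∀ (V : Type) (G : SimpleGraph V), HasK5 G ∨ HasK33 G →
    ¬ Iso (fun S T : {S : Set (V ⊕ G.edgeSet) // Clo G S} => S.1 ⊆ T.1) Q le

theorem ress_thm (h1 : FGS_S) (h2 : FPS_S) : RESS_S := by
  intro n I hI le hle Q hQ
  constructor
  · intro P _ h
    obtain ⟨J, hJ, μ0, μ2, f, hf⟩ := iso_redS I hI le hle Q hQ _ ⊥ ⊤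
      (fun _ => bot_le) (fun _ => le_top) h
    exact h2 n J hJ μ0 μ2 P f hf
  · intro V G hG h
    obtain ⟨J, hJ, μ0, μ2, hj⟩ := iso_redS I hI le hle Q hQ
      (fun S T : {S : Set (V ⊕ G.edgeSet) // Clo G S} => S.1 ⊆ T.1)
      ⟨∅, fun v e _ he => absurd he (Set.notMem_empty _)⟩
      ⟨Set.univ, fun v e _ _ => Set.mem_univ _⟩
      (fun _ => Set.empty_subset _) (fun _ => Set.subset_univ _) h
    exact h1 n J hJ μ0 μ2 V G hG hj

/-- 1-Euclidean instances are single-peaked. -/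
theorem euclid_ok {n : ℕ} (pM qM pW qW : Fin n → ℝ) (dM dW : Fin n → Fin n → ℝ)
    (hM : ∀ m w, dM m w = |pM m - qW w|) (hW : ∀ w m, dW w m = |pW w - qM m|)
    (iM : Inj dM) (iW : Inj dW) :
    ({ posM := qM, posW := qW, dM := dM, dW := dW } : SP n).Ok where
  iM := iM
  iW := iW
  jM := by
    intro a b hab
    have hab' : qM a = qM b := hab
    refine iW a ?_
    rw [hW, hW, hab']
  jW := by
    intro a b hab
    have hab' : qW a = qW b := hab
    refine iM a ?_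
    rw [hM, hM, hab']
  qM := by
    intro m a b c h1 h2
    have h1' : qW a < qW b := h1
    have h2' : qW b < qW c := h2
    show dM m b ≤ max (dM m a) (dM m c)
    rw [hM, hM, hM]
    rcases le_total (pM m) (qW b) with h | h
    · refine le_trans ?_ (le_max_right _ _)
      rw [abs_of_nonpos (by linarith), abs_of_nonpos (by linarith)]
      linarith
    · refine le_trans ?_ (le_max_left _ _)
      rw [abs_of_nonneg (by linarith), abs_of_nonneg (by linarith)]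
      linarith
  qW := by
    intro w a b c h1 h2
    have h1' : qM a < qM b := h1
    have h2' : qM b < qM c := h2
    show dW w b ≤ max (dW w a) (dW w c)
    rw [hW, hW, hW]
    rcases le_total (pW w) (qM b) with h | h
    · refine le_trans ?_ (le_max_right _ _)
      rw [abs_of_nonpos (by linarith), abs_of_nonpos (by linarith)]
      linarith
    · refine le_trans ?_ (le_max_left _ _)
      rw [abs_of_nonneg (by linarith), abs_of_nonneg (by linarith)]
      linarith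

end Pool.EUC
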