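import Pool.Agent.H82.EUC.Defs

/-!
Board `euc` (MP_d7577e_lc): the lattice of stable matchings of a 1-Euclidean instance is never
the lattice of closed sets of the incidence poset of a graph that contains `K_5`.

IDEA.  Draw the man `m` at `(prefM m, posM m)` and the woman `w` at `(posW w, prefW w)` in the
plane.  In a matching every man has a horizontal segment centred at him, every woman a vertical
segment centred at her, of radius the distance to the partner; a pair blocks iff the (open) segments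
cross.  So the moved people between two stable matchings form connected figures, figures of
unrelated elements are disjoint, and a drawing of `K_5` without crossings of independent edges
would result; the parity argument for `K_5` (rows PAI, K5S) excludes it.
-/

namespace Pool.EUC

/-- OPP. Opposite interests.  If `dM m (τ m) < dM m (σ m)`, put `w = τ m`; `dW w m ≤
dW w (σ.symm w)` by `WLe`, and `σ.symm w ≠ m` (otherwise `σ m = τ m`), so `<` by injectivity, and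
`(m, w)` blocks `σ`. -/
def OPP_S : Prop := ∀ (A : Type) (dM dW : A → A → ℝ), Inj dM → Inj dW →
  ∀ σ τ : Equiv.Perm A, Stb dM dW σ → Stb dM dW τ → WLe dW σ τ →
  ∀ m, dM m (σ m) ≤ dM m (τ m)

/-- MET. The pointwise meet of two stable matchings is a stable matching (Knuth, Conway).
`ρ m = if dM m (σ m) ≤ dM m (τ m) then σ m else τ m`.  Injective: if `σ m = w = τ m'`, `m ≠ m'`,
`m` strictly prefers `w` to `τ m`, so `dW w m' < dW w m` by stability of `τ`; `m'` strictly prefers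
`w` to `σ m'`, and `(m', w)` blocks `σ`.  Finite, so a permutation.  Women: let `m = ρ.symm w`,
say `w = σ m`; if `τ m ≠ w` then `m` strictly prefers `w` to `τ m`, so `dW w (τ.symm w) ≤ dW w m`.
Stability: a pair blocking `ρ` blocks `σ` or `τ`. -/
def MET_S : Prop := ∀ (A : Type) [Finite A] (dM dW : A → A → ℝ), Inj dM → Inj dW →
  ∀ σ τ : Equiv.Perm A, Stb dM dW σ → Stb dM dW τ → ∃ ρ, Stb dM dW ρ ∧ Meet dM dW σ τ ρ

/-- MTI (needs MET). Intersections of closed sets go to pointwise meets.  Let `ρ` be from MET for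
`f S`, `f T`, and `R = f.symm ρ`.  `WLe ρ (f S)`, `WLe ρ (f T)`, so `R ⊆ S`, `R ⊆ T`, `R ⊆ U`,
`WLe ρ (f U)`; conversely `WLe (f U) (f S)`, `WLe (f U) (f T)` give `WLe (f U) ρ`; so the women
have the same partners in `ρ` and `f U` (injectivity), `ρ = f U`. -/
def MTI_S : Prop := ∀ (A : Type) [Finite A] (dM dW : A → A → ℝ), Inj dM → Inj dW →
  ∀ (V : Type) (G : SimpleGraph V)
    (f : {S : Set (V ⊕ G.edgeSet) // Clo G S} ≃ {σ : Equiv.Perm A // Stb dM dW σ}),
    (∀ S T, S.1 ⊆ T.1 ↔ WLe dW (f S).1 (f T).1) →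
  ∀ S T U, U.1 = S.1 ∩ T.1 → Meet dM dW (f S).1 (f T).1 (f U).1

/-- FAM (needs MTI). The family.  `o = f ∅`, `a u = f {u}`, `d u v = f {u, v}`,
`b u v = f {u, v, uv}`, `c u v l = f {u, v, uv, l}` (vertices `c u`, edges `s(c u, c v)`; if `u = v`
take `f ∅` for `b`, `c`).  `itv`: `ν = f S` with `{u} ⊆ S ⊆ {u, v, uv}`; if `uv ∈ S` then
`v ∈ S`.  `oa`, `ad`, `db`, `bc` are inclusions; `oane`, `dbne`: different sets, `f` injective;
`m1`, `m2`, `m3`: intersections. -/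
def FAM_S : Prop := ∀ (A : Type) [Finite A] (dM dW : A → A → ℝ), Inj dM → Inj dW →
  ∀ (V : Type) (G : SimpleGraph V)
    (f : {S : Set (V ⊕ G.edgeSet) // Clo G S} ≃ {σ : Equiv.Perm A // Stb dM dW σ}),
    (∀ S T, S.1 ⊆ T.1 ↔ WLe dW (f S).1 (f T).1) →
  ∀ c : Fin 5 → V, Function.Injective c → (∀ i j, i ≠ j → G.Adj (c i) (c j)) →
  ∃ F : Fam A, IsFam dM dW F

/-- GLU (needs OPP). Gluing `μ2` on `C` with `μ0` off `C`.  Well defined: if `m ∈ C`, `m' ∉ C`,
`μ2 m = μ0 m' = w` then `w` is moved (otherwise `m = m'`), `m`, `m'` are moved, and both are `Adj`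
to `w` (OPP for `dM m' (μ0 m') ≤ dM m' (μ2 m')`), so `RR m m'`, contradiction; a map
`A → A` that is injective on a finite type is a permutation.  `ν.symm w` is `μ2.symm w` or
`μ0.symm w`.  Stable: let `(m, w)` block `ν`.  `m ∈ C`, `ν.symm w ∈ C`: blocks `μ2`.
`m ∉ C`, `ν.symm w ∉ C`: blocks `μ0`.  `m ∉ C`, `ν.symm w ∈ C`: `dW w (μ2.symm w) ≤
dW w (μ0.symm w)`, blocks `μ0`.  `m ∈ C`, `m1 = ν.symm w = μ0.symm w ∉ C`: if `w` is not moved it
blocks `μ2`; if `m` is not moved it blocks `μ0`; otherwise `Adj m w` and `Adj m1 w`, so `RR m m1`,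
contradiction. -/
def GLU_S : Prop := ∀ (A : Type) [Finite A] (dM dW : A → A → ℝ), Inj dM → Inj dW →
  ∀ μ0 μ2 : Equiv.Perm A, Stb dM dW μ0 → Stb dM dW μ2 → WLe dW μ0 μ2 →
  ∀ C : Set A, (∀ m m', RR dM dW μ0 μ2 m m' → (m ∈ C ↔ m' ∈ C)) →
  ∃ ν, Stb dM dW ν ∧ WLe dW μ0 ν ∧ WLe dW ν μ2 ∧ (∀ m ∈ C, ν m = μ2 m) ∧
    ∀ m, m ∉ C → ν m = μ0 m

/-- CON (needs GLU). Connectivity: if there is at most one stable matching strictly between `μ0`
and `μ2`, the moved men are connected.  `C` = men reachable from `m`; if `m' ∉ C` glue on `C`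
and on the complement of `C`: two stable matchings strictly between, so equal, but they differ
at `m`. (`RR` is symmetric.) -/
def CON_S : Prop := ∀ (A : Type) [Finite A] (dM dW : A → A → ℝ), Inj dM → Inj dW →
  ∀ μ0 μ2 : Equiv.Perm A, Stb dM dW μ0 → Stb dM dW μ2 → WLe dW μ0 μ2 →
  (∀ ν ν', Stb dM dW ν → Stb dM dW ν' → WLe dW μ0 ν → WLe dW ν μ2 → WLe dW μ0 ν' →
    WLe dW ν' μ2 → ν ≠ μ0 → ν ≠ μ2 → ν' ≠ μ0 → ν' ≠ μ2 → ν = ν') →
  ∀ m m', μ0 m ≠ μ2 m → μ0 m' ≠ μ2 m' → Relation.ReflTransGen (RR dM dW μ0 μ2) m m'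

/-- DSM (needs OPP). Moved men of `{u} - {u,v,uv}` and `{l} - {l,k,lk}` are different.
`X = c u v l`, `X' = c k l u`.  By `m2`, `a l m ≠ b k l m` gives `X m = a l m` (in the minimum);
by `m2` for `(k, l, v, u)` (and `bsymm`), `X' m = a u m`.  By `m3`, `dM m (d u l m) =
min (dM m (a l m)) (dM m (a u m))`, and it is at least both by `ad`, OPP; so `a u m = a l m = X m`.
By `bc`, OPP: `dM m (b u v m) ≤ dM m (X m) = dM m (a u m) ≤ dM m (b u v m)`, so
`a u m = b u v m`, contradiction. -/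
def DSM_S : Prop := ∀ (A : Type) (dM dW : A → A → ℝ), Inj dM → Inj dW → ∀ F : Fam A,
  IsFam dM dW F → ∀ u v k l : Fin 5, u ≠ v → u ≠ k → u ≠ l → v ≠ k → v ≠ l → k ≠ l →
  ∀ m, Mv F u v m → Mv F l k m → False

/-- DSW. The same for women, with `max` and `WLe` instead of `min` and OPP. -/
def DSW_S : Prop := ∀ (A : Type) (dM dW : A → A → ℝ), Inj dM → Inj dW → ∀ F : Fam A,
  IsFam dM dW F → ∀ u v k l : Fin 5, u ≠ v → u ≠ k → u ≠ l → v ≠ k → v ≠ l → k ≠ l →
  ∀ w, Wv F u v w → Wv F l k w → False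

/-- DSX (needs OPP DSM). No crossing.  `X = c u v l`.  `m2` and `Wv` give
`X.symm w = (a l).symm w`; `bc`, OPP give `dM m (b u v m) ≤ dM m (X m)`.  If `X m ≠ w` both
inequalities are strict for `X` and `(m, w)` blocks `X`.  If `X m = w`, then `(a l).symm w = m`,
`a l m = w`, `b l k m ≠ w` by `Wv`, so `Mv F l k m`, contradiction to DSM. -/
def DSX_S : Prop := ∀ (A : Type) (dM dW : A → A → ℝ), Inj dM → Inj dW → ∀ F : Fam A,
  IsFam dM dW F → ∀ u v k l : Fin 5, u ≠ v → u ≠ k → u ≠ l → v ≠ k → v ≠ l → k ≠ l →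
  ∀ m w, Mv F u v m → Wv F l k w → dM m w ≤ dM m (F.b u v m) →
    dW w m ≤ dW w ((F.a l).symm w) → False

/-- BAS (needs OPP). Base men: `mb v` with `o (mb v) ≠ a v (mb v)` (`oane`).  By `m1`
(`Meet (a u) (a v) o`), `o (mb v) = a u (mb v)`.  By OPP for `o ≤ a v`, `dM (o m) < dM (a v m)`,
and `dM (a v m) ≤ dM (d v u m) ≤ dM (b v u m)`, `bsymm`. -/
def BAS_S : Prop := ∀ (A : Type) (dM dW : A → A → ℝ), Inj dM → Inj dW → ∀ F : Fam A,
  IsFam dM dW F → ∃ mb : Fin 5 → A, ∀ u v, u ≠ v → F.a u (mb v) = F.o (mb v) ∧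
    dM (mb v) (F.o (mb v)) < dM (mb v) (F.b u v (mb v))

/-- WLK (needs OPP CON). The path of the edge `uv`, from `(o (mb u), mb u)` to
`(o (mb v), mb v)`.  Middle man: `e` with `d u v e ≠ b u v e`; it is moved for `(u, v)` and for
`(v, u)` (OPP).  CON for `(a v, b u v)` (`itv`): `mb u` to `e`; CON for `(a u, b u v)`: `e` to
`mb v`.  A step `RR m m'` with common neighbour `w'` gives, from a point `(w, m)` with
`HSE m w`, two steps `(w, m) → (w', m) → (w', m')` (the first with equal men, the second along the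
woman `w'`, `VSE w' m`, `VSE w' m'`).  At the end `(w', mb v) → (o (mb v), mb v)`, equal men.
The women `o (mb u)` and `o (mb v)` are moved: `(a v).symm (o (mb u)) = mb u`. -/
def WLK_S : Prop := ∀ (A : Type) [Finite A] (dM dW : A → A → ℝ), Inj dM → Inj dW →
  ∀ F : Fam A, IsFam dM dW F → ∀ mb : Fin 5 → A,
  (∀ u v, u ≠ v → F.a u (mb v) = F.o (mb v) ∧
    dM (mb v) (F.o (mb v)) < dM (mb v) (F.b u v (mb v))) →
  ∀ u v, u ≠ v → PtE F u v (F.o (mb u), mb u) ∧ PtE F u v (F.o (mb v), mb v) ∧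
    Relation.ReflTransGen (StE dM dW F u v) (F.o (mb u), mb u) (F.o (mb v), mb v)

/-- XPT (needs DSM DSW). Different coordinates.  `posW` is injective since `dM m` is; four cases
each, `Mv F u v`, `Mv F v u` against `Mv F k l`, `Mv F l k`. -/
def XPT_S : Prop := ∀ (n : ℕ) (I : Inst n), Inj I.dM → Inj I.dW → ∀ F : Fam (Fin n),
  IsFam I.dM I.dW F → ∀ u v k l : Fin 5, u ≠ v → u ≠ k → u ≠ l → v ≠ k → v ≠ l → k ≠ l →
  ∀ z t : Fin n × Fin n, PtE F u v z → PtE F k l t →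
    I.posW z.1 ≠ I.posW t.1 ∧ I.posM z.2 ≠ I.posM t.2

/-- XNG (needs XPT DSX). No crossing of the vertical part of a step of `uv` with the horizontal
part of a step of `kl`.  If `z.2 = z'.2` the interval is a point, XPT.  Otherwise `z.1` between
`t.1` and `t'.1` gives `dM t'.2 z.1 ≤ dM t'.2 (b k l t'.2)` (`HSE` for both ends), `t'.2` between
`z.2` and `z'.2` gives `VSE z.1 t'.2` (`VSE` for both ends); DSX in each case, with `bsymm`. -/
def XNG_S : Prop := ∀ (n : ℕ) (I : Inst n), Inj I.dM → Inj I.dW → ∀ F : Fam (Fin n),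
  IsFam I.dM I.dW F → ∀ u v k l : Fin 5, u ≠ v → u ≠ k → u ≠ l → v ≠ k → v ≠ l → k ≠ l →
  ∀ z z' t t' : Fin n × Fin n, StE I.dM I.dW F u v z z' → StE I.dM I.dW F k l t t' →
    ¬ (I.posW z.1 ∈ Set.uIcc (I.posW t.1) (I.posW t'.1) ∧
      I.posM t'.2 ∈ Set.uIcc (I.posM z.2) (I.posM z'.2))

/-- SEQ. Paths as sequences. -/
def SEQ_S : Prop := ∀ (α : Type) (r : α → α → Prop) (a b : α), Relation.ReflTransGen r a b →
  ∃ (N : ℕ) (z : ℕ → α), z 0 = a ∧ z N = b ∧ ∀ t < N, r (z t) (z (t + 1))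

/-- PAI. The pair identity for two paths of L-shaped steps (from `z s` vertically, then horizontally
at the height of `z (s+1)`) without crossings, modulo 2.  Let `A(p,q) = st p.1 q.1`,
`B(p,q) = st p.2 q.2`.  The crossing number of the steps `z z'` and `t t'` is
`(A(t,z) + A(t',z)) (B(z,t') + B(z',t')) + (A(z,t) + A(z',t)) (B(t,z') + B(t',z'))`; both products
are 0: if the first is not, `z.1` is in `uIcc t.1 t'.1` and `t'.2` in `uIcc z.2 z'.2`.  Since all
coordinates differ, `A(t,z) = 1 + A(z,t)` and so on, and the crossing number is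
`F(z,t') + F(z',t) + [G(z;t,t') + G(z';t,t')] + [H(z,z';t) + H(z,z';t')]` with
`F(z,t) = A(z,t) B(z,t)`, `G(z;t,t') = A(z,t) B(z,t')`, `H(z,z';t) = A(z,t) B(z',t)`, and
`F(z,t') + F(z',t) = [F(z,t) + F(z,t')] + [F(z,t) + F(z',t)]`.  Sum over both paths: the brackets
telescope (in `t`, or in `z`), the sum is `ph z N (t 0) + ph z N (t M) + ψ(z 0) + ψ(z N)`, `ψ(p) =
sum over the steps t t' of F(p,t) + G(p;t,t')`, and
`ψ(p) = ph t M p + B(t 0, p) + B(t M, p)` by `A(p,t) = 1 + A(t,p)`, `B(p,t) = 1 + B(t,p)`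
(telescoping again).  Checked numerically.  (Induction on `N` and `M` is also possible.) -/
def PAI_S : Prop := ∀ (z t : ℕ → ℝ × ℝ) (N M : ℕ),
  (∀ s ≤ N, ∀ r ≤ M, (z s).1 ≠ (t r).1 ∧ (z s).2 ≠ (t r).2) →
  (∀ s < N, ∀ r < M, ¬ ((z s).1 ∈ Set.uIcc (t r).1 (t (r + 1)).1 ∧
    (t (r + 1)).2 ∈ Set.uIcc (z s).2 (z (s + 1)).2)) →
  (∀ s < N, ∀ r < M, ¬ ((t r).1 ∈ Set.uIcc (z s).1 (z (s + 1)).1 ∧
    (z (s + 1)).2 ∈ Set.uIcc (t r).2 (t (r + 1)).2)) →
  ph z N (t 0) + ph z N (t M) + ph t M (z 0) + ph t M (z N) +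
    (st (t 0).2 (z 0).2 + st (t M).2 (z 0).2 + st (t 0).2 (z N).2 + st (t M).2 (z N).2) = 0

/-- K5S. The parity argument for `K_5`: add the 15 equations; every `φ i j k` occurs twice; for four
indices `i j k l` the three brackets `(ij|kl)`, `(ik|jl)`, `(il|jk)` add up to
`st β_k β_j + st β_j β_k + ... = 1 + 1 + 1 = 1`, since `st a b + st b a = 1` for `a ≠ b`; so the sum
is `5 = 1`. -/
def K5S_S : Prop := ∀ (φ : Fin 5 → Fin 5 → Fin 5 → ZMod 2) (β : Fin 5 → ℝ),
  Function.Injective β →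
  (∀ i j k l : Fin 5, i < j → k < l → i < k → j ≠ k → j ≠ l →
    φ i j k + φ i j l + φ k l i + φ k l j +
      (st (β k) (β i) + st (β l) (β i) + st (β k) (β j) + st (β l) (β j)) = 0) → False

/-- FIN (needs FAM BAS WLK SEQ XPT XNG PAI K5S). -/
def FIN_S : Prop := ∀ (n : ℕ) (I : Inst n), Inj I.dM → Inj I.dW →
  ∀ (V : Type) (G : SimpleGraph V), ¬ G.CliqueFree 5 →
  ¬ ∃ f : {S : Set (V ⊕ G.edgeSet) // Clo G S} ≃ {σ : Equiv.Perm (Fin n) // Stb I.dM I.dW σ},
    ∀ S T, S.1 ⊆ T.1 ↔ WLe I.dW (f S).1 (f T).1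

end Pool.EUC
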