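import Pool.Agent.H82.EUC.Stmts

/-!
Board `euc`, interval versions of MTI, FAM, FIN.
-/

set_option autoImplicit false

namespace Pool.EUC

/-- MTJ (needs MET). As MTI, for the stable matchings between `μ0` and `μ2`; new: the meet `ρ` is
between `μ0` and `μ2`. -/
def MTJ_S : Prop := ∀ (A : Type) [Finite A] (dM dW : A → A → ℝ), Inj dM → Inj dW →
  ∀ (μ0 μ2 : Equiv.Perm A) (V : Type) (G : SimpleGraph V)
    (f : {S : Set (V ⊕ G.edgeSet) // Clo G S} ≃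
      {σ : Equiv.Perm A // Stb dM dW σ ∧ WLe dW μ0 σ ∧ WLe dW σ μ2}),
    (∀ S T, S.1 ⊆ T.1 ↔ WLe dW (f S).1 (f T).1) →
  ∀ S T U, U.1 = S.1 ∩ T.1 → Meet dM dW (f S).1 (f T).1 (f U).1

/-- FAJ (needs MTJ). As FAM, for the stable matchings between `μ0` and `μ2`; new: in `itv`, `ν` is
between `μ0` and `μ2` (transitivity). -/
def FAJ_S : Prop := ∀ (A : Type) [Finite A] (dM dW : A → A → ℝ), Inj dM → Inj dW →
  ∀ (μ0 μ2 : Equiv.Perm A) (V : Type) (G : SimpleGraph V)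
    (f : {S : Set (V ⊕ G.edgeSet) // Clo G S} ≃
      {σ : Equiv.Perm A // Stb dM dW σ ∧ WLe dW μ0 σ ∧ WLe dW σ μ2}),
    (∀ S T, S.1 ⊆ T.1 ↔ WLe dW (f S).1 (f T).1) →
  ∀ c : Fin 5 → V, Function.Injective c → (∀ i j, i ≠ j → G.Adj (c i) (c j)) →
  ∃ F : Fam A, IsFam dM dW F

/-- FIJ (needs FAJ BAS WLK SEQ XPT XNG PAI K5S). -/
def FIJ_S : Prop := ∀ (n : ℕ) (I : Inst n), Inj I.dM → Inj I.dW → ∀ μ0 μ2 : Equiv.Perm (Fin n),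
  ∀ (V : Type) (G : SimpleGraph V), ¬ G.CliqueFree 5 →
  ¬ ∃ f : {S : Set (V ⊕ G.edgeSet) // Clo G S} ≃
      {σ : Equiv.Perm (Fin n) // Stb I.dM I.dW σ ∧ WLe I.dW μ0 σ ∧ WLe I.dW σ μ2},
    ∀ S T, S.1 ⊆ T.1 ↔ WLe I.dW (f S).1 (f T).1

end Pool.EUC
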