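import Pool.Agent.H82.EUC.Stmts2

/-!
Board `euc`, second round: the same for every nonplanar graph (walks instead of edges of `K_5`).
The vertices of `G` are now the indices of the family; `u ≠ v` becomes `G.Adj u v` for the edges.
-/

set_option autoImplicit false

namespace Pool.EUC

section
variable {A V : Type}

/-- The stable matchings used in the proof: `o`, `a u`, `d u v`, `b u v`, `c u v l` belong to the
closed sets `∅`, `{u}`, `{u,v}`, `{u,v,uv}`, `{u,v,uv,l}`. -/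
structure FamG (A V : Type) where
  o : Equiv.Perm A
  a : V → Equiv.Perm A
  d : V → V → Equiv.Perm A
  b : V → V → Equiv.Perm A
  c : V → V → V → Equiv.Perm A

/-- The properties of the family. -/
structure IsFamG (G : SimpleGraph V) (dM dW : A → A → ℝ) (F : FamG A V) : Prop where
  so : Stb dM dW F.o
  sa : ∀ u, Stb dM dW (F.a u)
  sd : ∀ u v, u ≠ v → Stb dM dW (F.d u v)
  sb : ∀ u v, G.Adj u v → Stb dM dW (F.b u v)
  sc : ∀ u v l, G.Adj u v → u ≠ l → v ≠ l → Stb dM dW (F.c u v l)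
  dsymm : ∀ u v, F.d u v = F.d v u
  bsymm : ∀ u v, F.b u v = F.b v u
  oa : ∀ u, WLe dW F.o (F.a u)
  oane : ∀ u, F.o ≠ F.a u
  ad : ∀ u v, u ≠ v → WLe dW (F.a u) (F.d u v)
  db : ∀ u v, G.Adj u v → WLe dW (F.d u v) (F.b u v)
  dbne : ∀ u v, G.Adj u v → F.d u v ≠ F.b u v
  bc : ∀ u v l, G.Adj u v → u ≠ l → v ≠ l → WLe dW (F.b u v) (F.c u v l)
  itv : ∀ u v, G.Adj u v → ∀ ν, Stb dM dW ν → WLe dW (F.a u) ν → WLe dW ν (F.b u v) →
    ν = F.a u ∨ ν = F.d u v ∨ ν = F.b u v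
  m1 : ∀ u v, u ≠ v → Meet dM dW (F.a u) (F.a v) F.o
  m2 : ∀ u v k l, G.Adj u v → G.Adj k l → u ≠ k → u ≠ l → v ≠ k → v ≠ l →
    Meet dM dW (F.c u v l) (F.b k l) (F.a l)
  m3 : ∀ u v k l, G.Adj u v → G.Adj k l → u ≠ k → u ≠ l → v ≠ k → v ≠ l →
    Meet dM dW (F.c u v l) (F.c k l u) (F.d u l)

/-- The man `m` is moved between `{u}` and `{u,v,uv}`. -/
def MvG (F : FamG A V) (u v : V) (m : A) : Prop := F.a u m ≠ F.b u v m

/-- The woman `w` is moved between `{u}` and `{u,v,uv}`. -/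
def WvG (F : FamG A V) (u v : V) (w : A) : Prop := (F.a u).symm w ≠ (F.b u v).symm w

/-- Points `(woman, man)` of the edge `uv`. -/
def PtG (F : FamG A V) (u v : V) (z : A × A) : Prop :=
  (WvG F u v z.1 ∨ WvG F v u z.1) ∧ (MvG F u v z.2 ∨ MvG F v u z.2)

/-- `w` is on the horizontal segment of the man `m` for the edge `uv`. -/
def HSG (dM : A → A → ℝ) (F : FamG A V) (u v : V) (m w : A) : Prop :=
  (MvG F u v m ∨ MvG F v u m) ∧ dM m w ≤ dM m (F.b u v m)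

/-- `m` is on the vertical segment of the woman `w` for the edge `uv`. -/
def VSG (dW : A → A → ℝ) (F : FamG A V) (u v : V) (w m : A) : Prop :=
  (WvG F u v w ∧ dW w m ≤ dW w ((F.a u).symm w)) ∨
  (WvG F v u w ∧ dW w m ≤ dW w ((F.a v).symm w))

/-- An L-shaped step of the path of the edge `uv`. -/
def StG (dM dW : A → A → ℝ) (F : FamG A V) (u v : V) (z z' : A × A) : Prop :=
  PtG F u v z ∧ PtG F u v z' ∧ HSG dM F u v z'.2 z.1 ∧ HSG dM F u v z'.2 z'.1 ∧
  (z.2 = z'.2 ∨ (VSG dW F u v z.1 z.2 ∧ VSG dW F u v z.1 z'.2))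

end

/-- FAG (needs MTJ). As FAJ, with the vertices of `G` as indices (for `d u u` take `a u`, for
`b`, `c` with `u`, `v` not adjacent take `f ∅`, so that `bsymm`, `dsymm` hold). -/
def FAG_S : Prop := ∀ (A : Type) [Finite A] (dM dW : A → A → ℝ), Inj dM → Inj dW →
  ∀ (μ0 μ2 : Equiv.Perm A) (V : Type) (G : SimpleGraph V)
    (f : {S : Set (V ⊕ G.edgeSet) // Clo G S} ≃
      {σ : Equiv.Perm A // Stb dM dW σ ∧ WLe dW μ0 σ ∧ WLe dW σ μ2}),
    (∀ S T, S.1 ⊆ T.1 ↔ WLe dW (f S).1 (f T).1) →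
  ∃ F : FamG A V, IsFamG G dM dW F

/-- DMG (needs OPP). As DSM. -/
def DMG_S : Prop := ∀ (A V : Type) (G : SimpleGraph V) (dM dW : A → A → ℝ), Inj dM → Inj dW →
  ∀ F : FamG A V, IsFamG G dM dW F → ∀ u v k l : V, G.Adj u v → G.Adj k l → u ≠ k → u ≠ l →
  v ≠ k → v ≠ l → ∀ m, MvG F u v m → MvG F l k m → False

/-- DWG. As DSW. -/
def DWG_S : Prop := ∀ (A V : Type) (G : SimpleGraph V) (dM dW : A → A → ℝ), Inj dM → Inj dW →
  ∀ F : FamG A V, IsFamG G dM dW F → ∀ u v k l : V, G.Adj u v → G.Adj k l → u ≠ k → u ≠ l →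
  v ≠ k → v ≠ l → ∀ w, WvG F u v w → WvG F l k w → False

/-- DXG (needs OPP DMG). As DSX. -/
def DXG_S : Prop := ∀ (A V : Type) (G : SimpleGraph V) (dM dW : A → A → ℝ), Inj dM → Inj dW →
  ∀ F : FamG A V, IsFamG G dM dW F → ∀ u v k l : V, G.Adj u v → G.Adj k l → u ≠ k → u ≠ l →
  v ≠ k → v ≠ l → ∀ m w, MvG F u v m → WvG F l k w → dM m w ≤ dM m (F.b u v m) →
    dW w m ≤ dW w ((F.a l).symm w) → False

/-- BAG (needs OPP). As BAS. -/
def BAG_S : Prop := ∀ (A V : Type) (G : SimpleGraph V) (dM dW : A → A → ℝ), Inj dM → Inj dW →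
  ∀ F : FamG A V, IsFamG G dM dW F → ∃ mb : V → A, ∀ u v, G.Adj u v →
    F.a u (mb v) = F.o (mb v) ∧ dM (mb v) (F.o (mb v)) < dM (mb v) (F.b u v (mb v))

/-- WLG (needs OPP CON). As WLK. -/
def WLG_S : Prop := ∀ (A : Type) [Finite A] (V : Type) (G : SimpleGraph V) (dM dW : A → A → ℝ),
  Inj dM → Inj dW → ∀ F : FamG A V, IsFamG G dM dW F → ∀ mb : V → A,
  (∀ u v, G.Adj u v → F.a u (mb v) = F.o (mb v) ∧
    dM (mb v) (F.o (mb v)) < dM (mb v) (F.b u v (mb v))) →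
  ∀ u v, G.Adj u v → PtG F u v (F.o (mb u), mb u) ∧ PtG F u v (F.o (mb v), mb v) ∧
    Relation.ReflTransGen (StG dM dW F u v) (F.o (mb u), mb u) (F.o (mb v), mb v)

/-- XPG (needs DMG DWG). As XPT. -/
def XPG_S : Prop := ∀ (n : ℕ) (I : Inst n), Inj I.dM → Inj I.dW → ∀ (V : Type)
  (G : SimpleGraph V) (F : FamG (Fin n) V), IsFamG G I.dM I.dW F → ∀ u v k l : V,
  G.Adj u v → G.Adj k l → u ≠ k → u ≠ l → v ≠ k → v ≠ l →
  ∀ z t : Fin n × Fin n, PtG F u v z → PtG F k l t →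
    I.posW z.1 ≠ I.posW t.1 ∧ I.posM z.2 ≠ I.posM t.2

/-- XNH (needs XPG DXG). As XNG. -/
def XNH_S : Prop := ∀ (n : ℕ) (I : Inst n), Inj I.dM → Inj I.dW → ∀ (V : Type)
  (G : SimpleGraph V) (F : FamG (Fin n) V), IsFamG G I.dM I.dW F → ∀ u v k l : V,
  G.Adj u v → G.Adj k l → u ≠ k → u ≠ l → v ≠ k → v ≠ l →
  ∀ z z' t t' : Fin n × Fin n, StG I.dM I.dW F u v z z' → StG I.dM I.dW F k l t t' →
    ¬ (I.posW z.1 ∈ Set.uIcc (I.posW t.1) (I.posW t'.1) ∧
      I.posM t'.2 ∈ Set.uIcc (I.posM z.2) (I.posM z'.2))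

/-- CAT (needs WLG SEQ). Concatenation along a walk `p` from `u` to `v`, `u ≠ v`: by induction on
`p` a path in the relation `∃ x y ∈ p.support, G.Adj x y ∧ StG x y` from `(o (mb u), mb u)` to
`(o (mb v), mb v)`; then SEQ.  Points: for `s < N` from the step, for `s = N > 0` from the step
before, for `N = 0` from WLG for the first edge of `p`. -/
def CAT_S : Prop := ∀ (A : Type) [Finite A] (V : Type) (G : SimpleGraph V) (dM dW : A → A → ℝ),
  Inj dM → Inj dW → ∀ F : FamG A V, IsFamG G dM dW F → ∀ mb : V → A,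
  (∀ u v, G.Adj u v → F.a u (mb v) = F.o (mb v) ∧
    dM (mb v) (F.o (mb v)) < dM (mb v) (F.b u v (mb v))) →
  ∀ (u v : V) (p : G.Walk u v), u ≠ v → ∃ (N : ℕ) (z : ℕ → A × A),
    z 0 = (F.o (mb u), mb u) ∧ z N = (F.o (mb v), mb v) ∧
    (∀ s < N, ∃ x y, x ∈ p.support ∧ y ∈ p.support ∧ G.Adj x y ∧
      StG dM dW F x y (z s) (z (s + 1))) ∧
    (∀ s ≤ N, ∃ x y, x ∈ p.support ∧ y ∈ p.support ∧ G.Adj x y ∧ PtG F x y (z s))

/-- PWI (needs BAG CAT XPG XNH PAI). `β x = posM (mb x)`, `Φ u v p x = ph (path of p) N (posW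
(o (mb x)), posM (mb x))` for the path of CAT.  PAI for the paths of `p` and `q`; `x, y ∈ p.support`
and `x', y' ∈ q.support` are different vertices (`List.Disjoint`).  The second part: XPG for the
first points, and for the last points (`z N`). -/
def PWI_S : Prop := ∀ (n : ℕ) (I : Inst n), Inj I.dM → Inj I.dW → ∀ (V : Type)
  (G : SimpleGraph V) (F : FamG (Fin n) V), IsFamG G I.dM I.dW F →
  ∃ (β : V → ℝ) (Φ : ∀ u v : V, G.Walk u v → V → ZMod 2),
    ∀ (u v k l : V) (p : G.Walk u v) (q : G.Walk k l), u ≠ v → k ≠ l →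
      p.support.Disjoint q.support →
      Φ u v p k + Φ u v p l + Φ k l q u + Φ k l q v +
        (st (β k) (β u) + st (β l) (β u) + st (β k) (β v) + st (β l) (β v)) = 0 ∧
      β u ≠ β k ∧ β v ≠ β l

/-- K33. The parity argument for `K_{3,3}`: add the 18 equations with `i < k`, `j ≠ l`; every
`φA i j k`, `φB i j l` occurs twice, `st (α k) (α i)` 6 times, `st (β l) (α i)`, `st (α k) (β j)`
an even number of times, and `st (β l) (β j)` three times for all `j ≠ l`: the sum is `9 = 1`. -/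
def K33_S : Prop := ∀ (φA φB : Fin 3 → Fin 3 → Fin 3 → ZMod 2) (α β : Fin 3 → ℝ),
  Function.Injective β →
  (∀ i j k l : Fin 3, i < k → j ≠ l →
    φA i j k + φB i j l + φA k l i + φB k l j +
      (st (α k) (α i) + st (β l) (α i) + st (α k) (β j) + st (β l) (β j)) = 0) → False

/-- Five vertices joined by walks, walks with different ends have no common vertex. -/
def HasK5 {V : Type} (G : SimpleGraph V) : Prop :=
  ∃ (c : Fin 5 → V) (p : ∀ i j, G.Walk (c i) (c j)), Function.Injective c ∧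
    ∀ i j k l, i ≠ j → k ≠ l → i ≠ k → i ≠ l → j ≠ k → j ≠ l →
      (p i j).support.Disjoint (p k l).support

/-- Three and three vertices joined by walks, walks with different ends have no common vertex. -/
def HasK33 {V : Type} (G : SimpleGraph V) : Prop :=
  ∃ (a b : Fin 3 → V) (p : ∀ i j, G.Walk (a i) (b j)), Function.Injective a ∧
    Function.Injective b ∧ (∀ i j, a i ≠ b j) ∧
    ∀ i j k l, i ≠ k → j ≠ l → (p i j).support.Disjoint (p k l).support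

/-- FIG (needs FAG PWI K5S K33). -/
def FIG_S : Prop := ∀ (n : ℕ) (I : Inst n), Inj I.dM → Inj I.dW → ∀ μ0 μ2 : Equiv.Perm (Fin n),
  ∀ (V : Type) (G : SimpleGraph V), HasK5 G ∨ HasK33 G →
  ¬ ∃ f : {S : Set (V ⊕ G.edgeSet) // Clo G S} ≃
      {σ : Equiv.Perm (Fin n) // Stb I.dM I.dW σ ∧ WLe I.dW μ0 σ ∧ WLe I.dW σ μ2},
    ∀ S T, S.1 ⊆ T.1 ↔ WLe I.dW (f S).1 (f T).1

end Pool.EUC
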