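import Pool.Agent.H82.EUC.Stmts3

/-!
Board `euc`, third round: the structure theorem.  If the lower sets of a poset `P` are isomorphic to
the lattice (or an interval of the lattice) of stable matchings of a 1-Euclidean instance, there are
compact path-connected plane sets `F x`, `x ∈ P`, with `F x ∩ F y = ∅` for incomparable `x, y`, and
`F x ∩ F y ≠ ∅` if `y` covers `x`.
-/

set_option autoImplicit false

namespace Pool.EUC

section
variable {A : Type}

/-- `ρ` is the pointwise join of `σ` and `τ`: every woman gets the better partner, every man the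
worse one. -/
def Join (dM dW : A → A → ℝ) (σ τ ρ : Equiv.Perm A) : Prop :=
  (∀ w, dW w (ρ.symm w) = min (dW w (σ.symm w)) (dW w (τ.symm w))) ∧
  (∀ m, dM m (ρ m) = max (dM m (σ m)) (dM m (τ m)))

/-- The lower sets of `P` as stable matchings. -/
structure IsLat (P : Type) [PartialOrder P] (dM dW : A → A → ℝ)
    (g : LowerSet P → Equiv.Perm A) : Prop where
  stb : ∀ S, Stb dM dW (g S)
  mono : ∀ S T, S ≤ T → WLe dW (g S) (g T)
  inj : Function.Injective g
  cvx : ∀ S T, ∀ ν, Stb dM dW ν → WLe dW (g S) ν → WLe dW ν (g T) →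
    ∃ U, S ≤ U ∧ U ≤ T ∧ g U = ν
  meet : ∀ S T, Meet dM dW (g S) (g T) (g (S ⊓ T))
  join : ∀ S T, Join dM dW (g S) (g T) (g (S ⊔ T))

/-- The man `m` is moved by `x`. -/
def Mo {P : Type} [PartialOrder P] (g : LowerSet P → Equiv.Perm A) (x : P) (m : A) : Prop :=
  g (LowerSet.Iio x) m ≠ g (LowerSet.Iic x) m

/-- The woman `w` is moved by `x`. -/
def Wo {P : Type} [PartialOrder P] (g : LowerSet P → Equiv.Perm A) (x : P) (w : A) : Prop :=
  (g (LowerSet.Iio x)).symm w ≠ (g (LowerSet.Iic x)).symm w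

/-- The segment of the man `m` meets the segment of the woman `w`, `m` moved by `x`, `w` by `y`. -/
def Cr {P : Type} [PartialOrder P] (dM dW : A → A → ℝ) (g : LowerSet P → Equiv.Perm A) (x y : P)
    (m w : A) : Prop :=
  Mo g x m ∧ Wo g y w ∧ dM m w ≤ dM m (g (LowerSet.Iic x) m) ∧
    dW w m ≤ dW w ((g (LowerSet.Iio y)).symm w)

end

/-- The horizontal segment of the man `m`, of radius `r`. -/
def hseg {n : ℕ} (I : Inst n) (m : Fin n) (r : ℝ) : Set (ℝ × ℝ) :=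
  Set.Icc (I.prefM m - r) (I.prefM m + r) ×ˢ {I.posM m}

/-- The vertical segment of the woman `w`, of radius `r`. -/
def vseg {n : ℕ} (I : Inst n) (w : Fin n) (r : ℝ) : Set (ℝ × ℝ) :=
  {I.posW w} ×ˢ Set.Icc (I.prefW w - r) (I.prefW w + r)

/-- The figure of the people moved between `μ` and `ν`. -/
def figure {n : ℕ} (I : Inst n) (μ ν : Equiv.Perm (Fin n)) : Set (ℝ × ℝ) :=
  {p | (∃ m, μ m ≠ ν m ∧ p ∈ hseg I m (I.dM m (ν m))) ∨
    ∃ w, μ.symm w ≠ ν.symm w ∧ p ∈ vseg I w (I.dW w (μ.symm w))}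

/-- JET (needs MET). Pointwise joins exist: MET for `dW`, `dM` (men and women interchanged) and
`σ.symm`, `τ.symm`; take `ρ.symm` (`min_comm`, `Equiv.symm_symm`; `Stb` is symmetric). -/
def JET_S : Prop := ∀ (A : Type) [Finite A] (dM dW : A → A → ℝ), Inj dM → Inj dW →
  ∀ σ τ : Equiv.Perm A, Stb dM dW σ → Stb dM dW τ → ∃ ρ, Stb dM dW ρ ∧ Join dM dW σ τ ρ

/-- LAT (needs MET JET). From an isomorphism with an interval.  As MTJ for meets and joins: the `ρ`
of MET (JET) is in the interval, `ρ = f R`, `R = S ⊓ T` (`S ⊔ T`) by antisymmetry; so take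
`g S = (f S).1`. -/
def LAT_S : Prop := ∀ (A : Type) [Finite A] (dM dW : A → A → ℝ), Inj dM → Inj dW →
  ∀ (μ0 μ2 : Equiv.Perm A) (P : Type) [PartialOrder P]
    (f : LowerSet P ≃ {σ : Equiv.Perm A // Stb dM dW σ ∧ WLe dW μ0 σ ∧ WLe dW σ μ2}),
    (∀ S T, S ≤ T ↔ WLe dW (f S).1 (f T).1) → IsLat P dM dW (fun S => (f S).1)

/-- PDM (needs OPP). `X = g (Iic x ⊔ Iio y)`.  `X ⊓ Iic y = Iio y` for the lower sets, so
`dM m (g (Iio y) m) = min (dM m (X m)) (dM m (g (Iic y) m))` and `Mo g y m` gives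
`dM m (X m) = dM m (g (Iio y) m)`.  By OPP, `dM m (g (Iic x) m) ≤ dM m (X m)`, and
`dM m (g (Iio x) m) < dM m (g (Iic x) m)`.  So `dM (Iio x) < dM (Iic x) ≤ dM (Iio y)`, and the same
with `x`, `y` interchanged: contradiction. -/
def PDM_S : Prop := ∀ (A P : Type) [PartialOrder P] (dM dW : A → A → ℝ), Inj dM → Inj dW →
  ∀ g : LowerSet P → Equiv.Perm A, IsLat P dM dW g → ∀ x y : P, ¬ x ≤ y → ¬ y ≤ x →
  ∀ m, Mo g x m → Mo g y m → False

/-- PDW. The same for women, with `max` and `mono` instead of `min` and OPP. -/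
def PDW_S : Prop := ∀ (A P : Type) [PartialOrder P] (dM dW : A → A → ℝ), Inj dM → Inj dW →
  ∀ g : LowerSet P → Equiv.Perm A, IsLat P dM dW g → ∀ x y : P, ¬ x ≤ y → ¬ y ≤ x →
  ∀ w, Wo g x w → Wo g y w → False

/-- PDX (needs OPP PDM). `X = g (Iic x ⊔ Iio y)`; `Wo g y w` and the meet `X ⊓ Iic y = Iio y` give
`X.symm w = (g (Iio y)).symm w`; OPP gives `dM m (g (Iic x) m) ≤ dM m (X m)`.  If `X m ≠ w`, both
inequalities are strict for `X` and `(m, w)` blocks `X`.  If `X m = w` then `g (Iio y) m = w`,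
`g (Iic y) m ≠ w`, so `Mo g y m`, contradiction to PDM. -/
def PDX_S : Prop := ∀ (A P : Type) [PartialOrder P] (dM dW : A → A → ℝ), Inj dM → Inj dW →
  ∀ g : LowerSet P → Equiv.Perm A, IsLat P dM dW g → ∀ x y : P, ¬ x ≤ y → ¬ y ≤ x →
  ∀ m w, Cr dM dW g x y m w → False

/-- PCO (needs CON). Nothing is strictly between `Iio x` and `Iic x` (`cvx`), so CON applies (its
hypothesis is vacuous). -/
def PCO_S : Prop := ∀ (A : Type) [Finite A] (P : Type) [PartialOrder P] (dM dW : A → A → ℝ),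
  Inj dM → Inj dW → ∀ g : LowerSet P → Equiv.Perm A, IsLat P dM dW g → ∀ x : P,
  ∀ m m', Mo g x m → Mo g x m' →
    Relation.ReflTransGen (RR dM dW (g (LowerSet.Iio x)) (g (LowerSet.Iic x))) m m'

/-- PSH (needs OPP). Shift: if `U ⊓ Iic x = Iio x` then the move from `U` to `U ⊔ Iic x` is the
same as the move of `x`: a man moved by `x` has in `U` the partner of `Iio x`, in `U ⊔ Iic x` that
of `Iic x`, a man not moved by `x` has the same partner in `U` and `U ⊔ Iic x`; the same for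
women.  (`meet`, `join`, injectivity; OPP for `Iio x ≤ Iic x`, or directly from `meet`, `join`.) -/
def PSH_S : Prop := ∀ (A P : Type) [PartialOrder P] (dM dW : A → A → ℝ), Inj dM → Inj dW →
  ∀ g : LowerSet P → Equiv.Perm A, IsLat P dM dW g → ∀ (x : P) (U : LowerSet P),
  U ⊓ LowerSet.Iic x = LowerSet.Iio x →
  (∀ m, Mo g x m → g U m = g (LowerSet.Iio x) m ∧ g (U ⊔ LowerSet.Iic x) m =
    g (LowerSet.Iic x) m) ∧
  (∀ m, ¬ Mo g x m → g U m = g (U ⊔ LowerSet.Iic x) m) ∧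
  (∀ w, Wo g x w → (g U).symm w = (g (LowerSet.Iio x)).symm w ∧
    (g (U ⊔ LowerSet.Iic x)).symm w = (g (LowerSet.Iic x)).symm w) ∧
  (∀ w, ¬ Wo g x w → (g U).symm w = (g (U ⊔ LowerSet.Iic x)).symm w)

/-- PCV (needs CON PSH). `U = Iic y` without `x`, `y` (a lower set, `x` is covered by `y`);
`U ⊓ Iic x = Iio x`, `U ⊔ Iic x = Iio y`.  Between `U` and `Iic y` there is exactly `Iio y` (a
lower set containing `y` contains `x`), so CON for `g U`, `g (Iic y)`.  Men moved between them: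
moved by `x` or by `y` (PSH).  Take `m` moved by `x`, `m'` moved by `y` (`g` is injective).  If no
man is moved by both, some step of the path from `m` to `m'` goes from a man `m1` moved by `x` and
not by `y` to `m2` moved by `y` and not by `x`, with common neighbour `w`.  If `w` is moved by `x`:
`Cr y x m2 w` (`(g U).symm w = (g (Iio x)).symm w`).  Otherwise `w` is moved by `y`,
`(g U).symm w = (g (Iio y)).symm w`, and `g (Iic y) m1 = g (Iio y) m1 = g (Iic x) m1`: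
`Cr x y m1 w`. -/
def PCV_S : Prop := ∀ (A : Type) [Finite A] (P : Type) [PartialOrder P] (dM dW : A → A → ℝ),
  Inj dM → Inj dW → ∀ g : LowerSet P → Equiv.Perm A, IsLat P dM dW g → ∀ x y : P, x ⋖ y →
  (∃ m, Mo g x m ∧ Mo g y m) ∨ (∃ m w, Cr dM dW g x y m w) ∨ (∃ m w, Cr dM dW g y x m w)

/-- GE1. The figure is compact (a finite union of products of `Icc` and a point) and path-connected:
segments are convex, so their points are `JoinedIn`; if `Adj m w`, the point `(posW w, posM m)` is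
on both segments; the segment of a moved woman `w` meets that of the moved man `ν.symm w`. -/
def GE1_S : Prop := ∀ (n : ℕ) (I : Inst n) (μ ν : Equiv.Perm (Fin n)), μ ≠ ν → WLe I.dW μ ν →
  (∀ m m', μ m ≠ ν m → μ m' ≠ ν m' → Relation.ReflTransGen (RR I.dM I.dW μ ν) m m') →
  IsCompact (figure I μ ν) ∧ IsPathConnected (figure I μ ν)

/-- GE2. Disjoint figures; `posM`, `posW` are injective by `Inj`. -/
def GE2_S : Prop := ∀ (n : ℕ) (I : Inst n), Inj I.dM → Inj I.dW →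
  ∀ μ ν μ' ν' : Equiv.Perm (Fin n),
  (∀ m, μ m ≠ ν m → μ' m ≠ ν' m → False) →
  (∀ w, μ.symm w ≠ ν.symm w → μ'.symm w ≠ ν'.symm w → False) →
  (∀ m w, μ m ≠ ν m → μ'.symm w ≠ ν'.symm w → I.dM m w ≤ I.dM m (ν m) →
    I.dW w m ≤ I.dW w (μ'.symm w) → False) →
  (∀ m w, μ' m ≠ ν' m → μ.symm w ≠ ν.symm w → I.dM m w ≤ I.dM m (ν' m) →
    I.dW w m ≤ I.dW w (μ.symm w) → False) →
  Disjoint (figure I μ ν) (figure I μ' ν')

/-- GE3. A common point: a man moved in both, or a crossing. -/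
def GE3_S : Prop := ∀ (n : ℕ) (I : Inst n) (μ ν μ' ν' : Equiv.Perm (Fin n)),
  ((∃ m, μ m ≠ ν m ∧ μ' m ≠ ν' m) ∨
    (∃ m w, μ m ≠ ν m ∧ μ'.symm w ≠ ν'.symm w ∧ I.dM m w ≤ I.dM m (ν m) ∧
      I.dW w m ≤ I.dW w (μ'.symm w)) ∨
    (∃ m w, μ' m ≠ ν' m ∧ μ.symm w ≠ ν.symm w ∧ I.dM m w ≤ I.dM m (ν' m) ∧
      I.dW w m ≤ I.dW w (μ.symm w))) →
  (figure I μ ν ∩ figure I μ' ν').Nonempty

/-- FIP (needs LAT PDM PDW PDX PCO PCV GE1 GE2 GE3). -/
def FIP_S : Prop := ∀ (n : ℕ) (I : Inst n), Inj I.dM → Inj I.dW → ∀ μ0 μ2 : Equiv.Perm (Fin n),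
  ∀ (P : Type) [PartialOrder P] (f : LowerSet P ≃ {σ : Equiv.Perm (Fin n) //
      Stb I.dM I.dW σ ∧ WLe I.dW μ0 σ ∧ WLe I.dW σ μ2}),
    (∀ S T, S ≤ T ↔ WLe I.dW (f S).1 (f T).1) →
  ∃ F : P → Set (ℝ × ℝ), (∀ x, IsCompact (F x) ∧ IsPathConnected (F x)) ∧
    (∀ x y, ¬ x ≤ y → ¬ y ≤ x → Disjoint (F x) (F y)) ∧
    ∀ x y, x ⋖ y → (F x ∩ F y).Nonempty

end Pool.EUC
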