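import Pool.Agent.H82.EUC.Stmts4

/-!
Board `euc`, part B (a second hand-in): for every finite family of vertical and horizontal segments
in the plane there is a 1-Euclidean instance whose stable matchings are the closed sets of the poset
in which the vertical segment `v` is below the horizontal segment `e` iff they meet.

IDEA.  Every segment is a block of two men and two women; before: `(b, i)` with `(b, i)`; after:
`(b, i)` with `(b, !i)`.  Rows BK.: abstract block systems.  Rows GD.: integer coordinates, growing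
by the factor 4, so that the symmetric overshoot of the segments of the persons is harmless.
-/

set_option autoImplicit false

namespace Pool.EUC

open Classical in
/-- The matching of the set `S` of blocks. -/
noncomputable def sg {B : Type} (S : Set B) : Equiv.Perm (B × Bool) where
  toFun z := (z.1, if z.1 ∈ S then !z.2 else z.2)
  invFun z := (z.1, if z.1 ∈ S then !z.2 else z.2)
  left_inv := by
    rintro ⟨b, i⟩
    by_cases h : b ∈ S <;> simp [h]
  right_inv := by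
    rintro ⟨b, i⟩
    by_cases h : b ∈ S <;> simp [h]

/-- Block systems; `R c b` means that the block `c` has to be moved before the block `b`. -/
structure IsBlk (B : Type) (R : B → B → Prop) (dM dW : B × Bool → B × Bool → ℝ) : Prop where
  inM : ∀ b i, dM (b, i) (b, i) < dM (b, i) (b, !i)
  inW : ∀ b i, dW (b, i) (b, !i) < dW (b, i) (b, i)
  crs : ∀ b c i j, b ≠ c → dM (b, i) (c, j) ≤ dM (b, i) (b, !i) →
    dW (c, j) (b, i) ≤ dW (c, j) (c, j) →
    R c b ∧ dM (b, i) (b, i) < dM (b, i) (c, j) ∧ dW (c, j) (c, !j) < dW (c, j) (b, i)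
  ex : ∀ b c, R c b → b ≠ c ∧ ∃ i j, dM (b, i) (c, j) < dM (b, i) (b, !i) ∧
    dW (c, j) (b, i) < dW (c, j) (c, j)
  pM : ∃ pot : B × Bool → ℝ, ∀ m w, dM m w < dM m m → pot w < pot m
  pW : ∃ pot : B × Bool → ℝ, ∀ w m, dW w m < dW w (w.1, !w.2) → pot m < pot (w.1, !w.2)
  rk : ∃ rk : B → ℕ, ∀ b c, R c b → rk c < rk b

/-- Closed sets of blocks. -/
def Cls {B : Type} (R : B → B → Prop) (S : Set B) : Prop := ∀ b c, R c b → b ∈ S → c ∈ S

/-- BKS. `sg S` is stable for closed `S`.  Let `((b, i), (c, j))` block.  `b = c`: one of the two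
does not prefer the other (`inM`, `inW`).  `b ≠ c`: both inequalities of `crs` hold (the partner of
`(b, i)` is `(b, i)` or `(b, !i)`, use `inM`; the same for `(c, j)`), so `R c b`; if `b ∉ S` the man
does not prefer `(c, j)`; if `b ∈ S` then `c ∈ S` and the woman does not prefer `(b, i)`. -/
def BKS_S : Prop := ∀ (B : Type) (R : B → B → Prop) (dM dW : B × Bool → B × Bool → ℝ),
  IsBlk B R dM dW → ∀ S, Cls R S → Stb dM dW (sg S)

/-- BKO (needs MET JET BKS). Bounds.  `sg ∅` is the identity.  Let `ρ` be the meet of `σ` and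
`sg ∅` (MET).  If `ρ m ≠ m` for some `m`, take such `m` with `pot m` minimal (`pM`): `dM m (ρ m) <
dM m m`, so `pot (ρ m) < pot m`, and `ρ (ρ m) ≠ ρ m`, contradiction.  So `ρ = 1` and the two
equations of the meet give the first and the last inequality.  In the same way the join of `σ` and
`sg univ` (JET) is `sg univ` (take `w` with `ρ.symm w ≠ (sg univ).symm w` and the potential of
`(sg univ).symm w = (w.1, !w.2)` minimal). -/
def BKO_S : Prop := ∀ (B : Type) [Finite B] (R : B → B → Prop)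
  (dM dW : B × Bool → B × Bool → ℝ), Inj dM → Inj dW → IsBlk B R dM dW →
  ∀ σ, Stb dM dW σ → (∀ m, dM m m ≤ dM m (σ m) ∧ dM m (σ m) ≤ dM m (m.1, !m.2)) ∧
    (∀ w, dW w (w.1, !w.2) ≤ dW w (σ.symm w) ∧ dW w (σ.symm w) ≤ dW w w)

/-- BKI (needs BKO). Partners are in the same block: induction on `rk`.  If `σ (b, i) = (c, j)`,
`b ≠ c`, then `R c b` by `crs` and BKO, so `rk c < rk b` and by induction `σ` maps the two men of `c`
to the block `c`, injectively, so onto the two women of `c`; contradiction. -/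
def BKI_S : Prop := ∀ (B : Type) [Finite B] (R : B → B → Prop)
  (dM dW : B × Bool → B × Bool → ℝ), Inj dM → Inj dW → IsBlk B R dM dW →
  ∀ σ, Stb dM dW σ → ∀ m, (σ m).1 = m.1

/-- BKC (needs BKI). `S = {b | σ (b, true) = (b, false)}`; `σ = sg S` since `σ` is injective on the
two men of a block.  Closed: if `R c b`, `b ∈ S`, `c ∉ S`, the pair of `ex` blocks `σ`. -/
def BKC_S : Prop := ∀ (B : Type) [Finite B] (R : B → B → Prop)
  (dM dW : B × Bool → B × Bool → ℝ), Inj dM → Inj dW → IsBlk B R dM dW →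
  ∀ σ, Stb dM dW σ → ∃ S, Cls R S ∧ σ = sg S

/-- BKE (needs BKS BKC). The isomorphism `S ↦ sg S`.  If `S ⊆ T`, `WLe` by `inW`; if `b ∈ S`,
`b ∉ T`, then `WLe` fails for the woman `(b, true)`.  (`sg` is injective.) -/
def BKE_S : Prop := ∀ (B : Type) [Finite B] (R : B → B → Prop)
  (dM dW : B × Bool → B × Bool → ℝ), Inj dM → Inj dW → IsBlk B R dM dW →
  ∃ f : {S : Set B // Cls R S} ≃ {σ : Equiv.Perm (B × Bool) // Stb dM dW σ},
    ∀ S T, S.1 ⊆ T.1 ↔ WLe dW (f S).1 (f T).1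

/-- Integer data of vertical segments `V` (at `X`, from `L` to `H`) and horizontal segments `E` (at
height `Y`, from `XL` to `XR`). -/
structure Dat (V E : Type) where
  X : V → ℤ
  L : V → ℤ
  H : V → ℤ
  Y : E → ℤ
  XL : E → ℤ
  XR : E → ℤ

/-- The gaps. -/
structure IsDat {V E : Type} (d : Dat V E) : Prop where
  X4 : ∀ v, 400 ≤ d.X v
  L4 : ∀ v, 400 ≤ d.L v
  LH : ∀ v, d.L v ≤ d.H v
  Y4 : ∀ e, 400 ≤ d.Y e
  XL4 : ∀ e, 400 ≤ d.XL e
  XLR : ∀ e, d.XL e ≤ d.XR e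
  Xs : ∀ v w, v ≠ w → d.X v + 100 ≤ d.X w ∨ d.X w + 100 ≤ d.X v
  Ys : ∀ e e', e ≠ e' → d.Y e + 100 ≤ d.Y e' ∨ d.Y e' + 100 ≤ d.Y e
  Hs : ∀ v w, v ≠ w → 2 * d.H v ≤ d.H w ∨ 2 * d.H w ≤ d.H v
  Rs : ∀ e e', e ≠ e' → 2 * d.XR e ≤ d.XR e' ∨ 2 * d.XR e' ≤ d.XR e
  c1 : ∀ v e, d.X v < d.XL e → d.X v + 100 ≤ d.XL e
  c2 : ∀ v e, d.XR e < d.X v → 2 * d.XR e ≤ d.X v
  c3 : ∀ v e, d.Y e < d.L v → d.Y e + 100 ≤ d.L v
  c4 : ∀ v e, d.H v < d.Y e → 2 * d.H v ≤ d.Y e

section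
variable {V E : Type}

/-- The segments meet. -/
def Dat.Cr (d : Dat V E) (v : V) (e : E) : Prop :=
  d.XL e ≤ d.X v ∧ d.X v ≤ d.XR e ∧ d.L v ≤ d.Y e ∧ d.Y e ≤ d.H v

/-- The relation between blocks. -/
def Dat.R (d : Dat V E) (c b : V ⊕ E) : Prop := ∃ v e, c = Sum.inl v ∧ b = Sum.inr e ∧ d.Cr v e

/-- Positions of the women. -/
def Dat.posW (d : Dat V E) : (V ⊕ E) × Bool → ℤ
  | (Sum.inl v, false) => 4 * d.X v
  | (Sum.inl v, true) => 4 * (d.X v + 10)
  | (Sum.inr e, false) => 4 * (d.XR e + 30)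
  | (Sum.inr e, true) => 4 * (2 * d.XR e - d.XL e + 90)

/-- Positions of the men. -/
def Dat.posM (d : Dat V E) : (V ⊕ E) × Bool → ℤ
  | (Sum.inl v, false) => 4 * (2 * d.H v - d.L v + 90)
  | (Sum.inl v, true) => 4 * (d.H v + 30)
  | (Sum.inr e, false) => 4 * d.Y e
  | (Sum.inr e, true) => 4 * (d.Y e + 10)

/-- Preference points of the men. -/
def Dat.prefM (d : Dat V E) : (V ⊕ E) × Bool → ℤ
  | (Sum.inl v, false) => 4 * d.X v - 1
  | (Sum.inl v, true) => 4 * (d.X v + 10) - 1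
  | (Sum.inr e, false) => 4 * (d.XR e + 30) - 1
  | (Sum.inr e, true) => 2 * (3 * d.XR e - d.XL e + 120) + 1

/-- Preference points of the women. -/
def Dat.prefW (d : Dat V E) : (V ⊕ E) × Bool → ℤ
  | (Sum.inl v, false) => 4 * (d.H v + 30) - 1
  | (Sum.inl v, true) => 2 * (3 * d.H v - d.L v + 120) + 1
  | (Sum.inr e, false) => 4 * (d.Y e + 10) - 1
  | (Sum.inr e, true) => 4 * d.Y e - 1

/-- Distances of the men. -/
def Dat.dM (d : Dat V E) (m w : (V ⊕ E) × Bool) : ℝ := |(d.prefM m : ℝ) - (d.posW w : ℝ)|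

/-- Distances of the women. -/
def Dat.dW (d : Dat V E) (w m : (V ⊕ E) × Bool) : ℝ := |(d.prefW w : ℝ) - (d.posM m : ℝ)|

end

/-- GDI. No ties: `posW`, `posM` are injective (omega from `Xs`, `c2`, `Rs`; `Ys`, `c4`, `Hs`), all
positions are divisible by 4 and all preference points are odd. -/
def GDI_S : Prop := ∀ (V E : Type) (d : Dat V E), IsDat d → Inj d.dM ∧ Inj d.dW

/-- GDA. The conditions inside the blocks and the potentials `posW`, `posM` (the preference point of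
`m` is less than `posW m`; the preference point of `w` is less than `posM (w.1, !w.2)`).  Go to
integers first: `d.dM m w = ((|d.prefM m - d.posW w| : ℤ) : ℝ)`; then cases and `omega`. -/
def GDA_S : Prop := ∀ (V E : Type) (d : Dat V E), IsDat d →
  (∀ b i, d.dM (b, i) (b, i) < d.dM (b, i) (b, !i)) ∧
  (∀ b i, d.dW (b, i) (b, !i) < d.dW (b, i) (b, i)) ∧
  (∃ pot : (V ⊕ E) × Bool → ℝ, ∀ m w, d.dM m w < d.dM m m → pot w < pot m) ∧
  (∃ pot : (V ⊕ E) × Bool → ℝ, ∀ w m, d.dW w m < d.dW w (w.1, !w.2) →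
    pot m < pot (w.1, !w.2))

/-- GDC. Crossings between different blocks.  Go to integers, then 16 cases for `b`, `c`, `i`, `j`
and `omega` with the facts of `IsDat` for the pair (in the case `b = inr e`, `c = inl v`: `c1`, `c2`,
`c3`, `c4`, `X4`, `L4`, `LH`, `Y4`, `XL4`, `XLR`); only the case `i = j = false` is possible. -/
def GDC_S : Prop := ∀ (V E : Type) (d : Dat V E), IsDat d → ∀ b c i j, b ≠ c →
  d.dM (b, i) (c, j) ≤ d.dM (b, i) (b, !i) → d.dW (c, j) (b, i) ≤ d.dW (c, j) (c, j) →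
  d.R c b ∧ d.dM (b, i) (b, i) < d.dM (b, i) (c, j) ∧ d.dW (c, j) (c, !j) < d.dW (c, j) (b, i)

/-- GDE. Existence of a crossing pair: `i = j = false`. -/
def GDE_S : Prop := ∀ (V E : Type) (d : Dat V E), IsDat d → ∀ b c, d.R c b → b ≠ c ∧
  ∃ i j, d.dM (b, i) (c, j) < d.dM (b, i) (b, !i) ∧ d.dW (c, j) (b, i) < d.dW (c, j) (c, j)

/-- RK0. Ranks: `g a` is the number of `c` with `f c < f a`. -/
def RK0_S : Prop := ∀ (K α : Type) [Finite K] [LinearOrder α] (f : K → α), Function.Injective f →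
  ∃ g : K → ℕ, (∀ a b, f a < f b ↔ g a < g b) ∧ ∀ a, g a < Nat.card K

/-- RNK (needs RK0). From real segments to integer data.  In the direction of `x` use RK0 for
`K = V ⊕ (E ⊕ E)` and the keys `(l e, 0, index)`, `(x v, 1, index)`, `(r e, 2, index)` in
`ℝ ×ₗ ℕ ×ₗ ℕ` (index: an injection of the finite type to `ℕ`): so `l e ≤ x v` iff `g (l e) < g (x v)`,
`x v ≤ r e` iff `g (x v) < g (r e)`.  `X v = 100 * 4 ^ (g + 1)` and so on; the same for `lo`, `y`,
`hi` with `K = E ⊕ (V ⊕ V)`. -/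
def RNK_S : Prop := ∀ (V E : Type) [Finite V] [Finite E] (x lo hi : V → ℝ) (y l r : E → ℝ),
  (∀ v, lo v ≤ hi v) → (∀ e, l e ≤ r e) → ∃ d : Dat V E, IsDat d ∧
    (∀ v e, d.Cr v e ↔ l e ≤ x v ∧ x v ≤ r e ∧ lo v ≤ y e ∧ y e ≤ hi v) ∧
    (∀ v, d.X v ≤ 100 * 4 ^ (2 * (Nat.card V + Nat.card E)) ∧
      d.H v ≤ 100 * 4 ^ (2 * (Nat.card V + Nat.card E))) ∧
    ∀ e, d.Y e ≤ 100 * 4 ^ (2 * (Nat.card V + Nat.card E)) ∧
      d.XR e ≤ 100 * 4 ^ (2 * (Nat.card V + Nat.card E))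

/-- BND. Sizes of the coordinates (`400 ≤ XR`, so `30, 90, 120 ≤ XR`; `800 < 4 ^ 5`). -/
def BND_S : Prop := ∀ (V E : Type) (d : Dat V E) (n : ℕ), IsDat d →
  (∀ v, d.X v ≤ 100 * 4 ^ n ∧ d.H v ≤ 100 * 4 ^ n) →
  (∀ e, d.Y e ≤ 100 * 4 ^ n ∧ d.XR e ≤ 100 * 4 ^ n) → ∀ z,
    (0 ≤ d.prefM z ∧ d.prefM z ≤ 4 ^ (n + 5)) ∧ (0 ≤ d.posM z ∧ d.posM z ≤ 4 ^ (n + 5)) ∧
    (0 ≤ d.prefW z ∧ d.prefW z ≤ 4 ^ (n + 5)) ∧ (0 ≤ d.posW z ∧ d.posW z ≤ 4 ^ (n + 5))

/-- TRN. Transport to `Fin n`: `prefM' = prefM ∘ e.symm` and so on, `σ ↦ e.symm.trans (σ.trans e)`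
(`Equiv.permCongr`). -/
def TRN_S : Prop := ∀ (A : Type) (n : ℕ) (e : A ≃ Fin n) (pM qM pW qW : A → ℝ),
  ∃ h : {σ : Equiv.Perm A // Stb (fun m w => |pM m - qW w|) (fun w m => |pW w - qM m|) σ} ≃
      {σ : Equiv.Perm (Fin n) // Stb (fun m w => |pM (e.symm m) - qW (e.symm w)|)
        (fun w m => |pW (e.symm w) - qM (e.symm m)|) σ},
    ∀ σ τ, WLe (fun w m => |pW w - qM m|) σ.1 τ.1 ↔
      WLe (fun w m => |pW (e.symm w) - qM (e.symm m)|) (h σ).1 (h τ).1

/-- NIS. Closed sets and independent sets: complement on the side of `V`. -/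
def NIS_S : Prop := ∀ (V E : Type) (C : V → E → Prop),
  Nat.card {S : Set (V ⊕ E) // ∀ v e, C v e → Sum.inr e ∈ S → Sum.inl v ∈ S} =
    Nat.card {S : Set (V ⊕ E) // ∀ v e, C v e → ¬ (Sum.inl v ∈ S ∧ Sum.inr e ∈ S)}

end Pool.EUC
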